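import Pool.Agent.TH677.GA.KT

/-!
# Universal machines exist
-/

set_option autoImplicit false

namespace Pool.Agent.TH677.GA

/-- a halting computation determines its length and its verdict -/
theorem Halts.unique {P : List Instr} {d x : List Bool} {t t' : ℕ} {v v' : Bool}
    (h : Halts P d x t v) (h' : Halts P d x t' v') : t = t' ∧ v = v' := by
  have key : ∀ {s s' : ℕ} {u u' : Bool}, Halts P d x s u → Halts P d x s' u' → s ≤ s' →
      s = s' ∧ u = u' := by
    rintro s s' u u' ⟨c, h1, h2, h3⟩ ⟨c', h1', h2', h3'⟩ hs
    obtain ⟨m, rfl⟩ := Nat.exists_eq_add_of_le hs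
    rw [steps_add P d s m h1] at h1'
    cases m with
    | zero =>
      simp only [steps, Option.some.injEq] at h1'
      subst h1'
      refine ⟨rfl, ?_⟩
      rw [Bool.eq_iff_iff, h3, h3']
    | succ m =>
      simp only [steps, h2, Option.bind_none] at h1'
      exact absurd h1' (by simp)
  rcases le_total t t' with h1 | h1
  · exact key h h' h1
  · obtain ⟨h2, h3⟩ := key h' h h1
    exact ⟨h2.symm, h3.symm⟩

/-- the code of an instruction -/
def instrCode : Instr → List ℕ
  | Instr.push k b => [0, k, if b then 1 else 0]
  | Instr.pop k => [1, k]
  | Instr.branch k a b c => [2, k, a, b, c]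
  | Instr.ask k => [3, k]

theorem instrCode_inj : Function.Injective instrCode := by
  intro x y h
  cases x with
  | push k c =>
    cases y with
    | push k' c' => cases c <;> cases c' <;> simp_all [instrCode]
    | pop k' => simp [instrCode] at h
    | branch k' l m n => simp [instrCode] at h
    | ask k' => simp [instrCode] at h
  | pop k => cases y <;> simp_all [instrCode]
  | branch k l m n => cases y <;> simp_all [instrCode]
  | ask k => cases y <;> simp_all [instrCode]

/-- the number of a program -/
def progCode (P : List Instr) : ℕ := Encodable.encode (P.map instrCode)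

theorem progCode_inj : Function.Injective progCode := fun _ _ h =>
  List.map_injective_iff.2 instrCode_inj (Encodable.encode_injective h)

open Classical in
/-- a universal machine -/
noncomputable def univ : Machine where
  run d i b := if h : ∃ q : List Instr × Bool × ℕ, progCode q.1 = lead d ∧
      Halts q.1 (d.drop (lead d + 1)) (inCode i b) q.2.2 q.2.1 then
    some (h.choose.2.1, h.choose.2.2 + 1) else none
  pos d i b v t h := by
    split_ifs at h with h1
    simp only [Option.some.injEq, Prod.mk.injEq] at h
    omega

/-- there is a universal machine -/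
theorem exists_universal : ∃ U : Machine, U.Universal := by
  classical
  refine ⟨univ, fun P => ⟨progCode P + 1, fun d =>
    ⟨List.replicate (progCode P) true ++ false :: d, by simp; omega, fun i b v t h => ?_⟩⟩⟩
  have h1 : lead (List.replicate (progCode P) true ++ false :: d) = progCode P :=
    lead_header _ _
  have h2 : (List.replicate (progCode P) true ++ false :: d).drop (progCode P + 1) = d := by
    rw [List.drop_append, List.length_replicate, List.drop_of_length_le (by simp)]
    simp
  have hex : ∃ q : List Instr × Bool × ℕ,
      progCode q.1 = lead (List.replicate (progCode P) true ++ false :: d) ∧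
      Halts q.1 ((List.replicate (progCode P) true ++ false :: d).drop
        (lead (List.replicate (progCode P) true ++ false :: d) + 1)) (inCode i b) q.2.2 q.2.1 :=
    ⟨(P, v, t), h1.symm, by rw [h1, h2]; exact h⟩
  have hrun : univ.run (List.replicate (progCode P) true ++ false :: d) i b =
      some (hex.choose.2.1, hex.choose.2.2 + 1) := by
    unfold univ
    simp only
    rw [dif_pos hex]
  obtain ⟨h3, h4⟩ := hex.choose_spec
  generalize hex.choose = q at hrun h3 h4
  rw [h1, h2] at h4
  rw [h1] at h3
  rw [progCode_inj h3] at h4
  obtain ⟨h5, h6⟩ := h.unique h4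
  refine ⟨t + 1, ?_, ?_⟩
  · calc t + 1 = 1 * (t + 1) ^ 1 := by ring
      _ ≤ (progCode P + 1) * (t + 1) ^ (progCode P + 1) :=
        Nat.mul_le_mul (by omega) (Nat.pow_le_pow_right (by omega) (by omega))
  · rw [hrun, ← h5, ← h6]

end Pool.Agent.TH677.GA
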