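import Pool.Agent.TH677.GA.Count

/-!
# The algorithm
-/

set_option autoImplicit false

namespace Pool.Agent.TH677.GA

open Pool.Agent.NPC Pool.Agent.H622R2
open Pool.Agent.H620R2.Gauge (Oracle IsFP IsFP.tt)

/-- the rows of the matrix coded by `x` -/
def rowsOf (x : List Bool) : List (List Bool) :=
  match unbits (List (List Bool)) x with
  | some r => r
  | none => []

section

variable (Q : Polynomial ℕ) (C : ℕ)

/-- the number of trials -/
def trials (x : List Bool) : ℕ := 20 * (x.length + 1)

/-- the number of arrangements in a block -/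
def bOfX (x : List Bool) : ℕ := x.length + C

/-- the number of blocks -/
def qOfX (x : List Bool) : ℕ := Q.eval (x.length + C)

/-- the number of random bits of a trial -/
def rOfX (x : List Bool) : ℕ :=
  tlen (2 * (rowsOf x).length) ((rowsOf x).length + 3) (bOfX C x) (qOfX Q C x)

/-- the question for the structure with arguments `i, j, a, b` in trial `k` -/
def quest (w x : List Bool) (i j a b k : ℕ) : List Bool :=
  trial (entA (rowsOf x, i, j, a, b)) (2 * (rowsOf x).length) ((rowsOf x).length + 3) (bOfX C x)
    (qOfX Q C x) (chunk (rOfX Q C x) k w)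

/-- the number of a question -/
def qIdx (n K i j a b k : ℕ) : ℕ := (((i * n + j) * n + a) * n + b) * K + k

/-- the question with a given number -/
def questN (w x : List Bool) (N : ℕ) : List Bool :=
  let n := (rowsOf x).length
  let K := trials x
  quest Q C w x (N / K / n / n / n) (N / K / n / n % n) (N / K / n % n) (N / K % n) (N % K)

/-- all questions -/
def questions (z : List Bool) : List (List Bool) :=
  (List.range ((rowsOf (unpair z).2).length * (rowsOf (unpair z).2).length *
    (rowsOf (unpair z).2).length * (rowsOf (unpair z).2).length * trials (unpair z).2)).map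
    (fun N => questN Q C (unpair z).1 (unpair z).2 N)

/-- whether one of the trials gave a random string -/
def certA (x ans : List Bool) (i j a b : ℕ) : Bool :=
  (List.range (trials x)).any fun k =>
    ans.getD (qIdx (rowsOf x).length (trials x) i j a b k) false

/-- the candidate for the image of `a` -/
def imgA (x ans : List Bool) (i j a : ℕ) : ℕ :=
  ((List.range (rowsOf x).length).filter fun b => !certA x ans i j a b).head?.getD 0

/-- the matrix is the adjacency matrix of a graph -/
def okG (rows : List (List Bool)) : Bool :=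
  rows.all (fun r => decide (r.length = rows.length)) &&
    (List.range rows.length).all fun s => (List.range rows.length).all fun t =>
      decide (entry rows s t = entry rows t s) && !(entry rows s s)

/-- the list gives an automorphism other than the identity -/
def okAut (rows : List (List Bool)) (L : List ℕ) : Bool :=
  ((List.range rows.length).all fun s => decide (L.getD s 0 < rows.length) &&
    (List.range rows.length).all fun t =>
      decide (entry rows (L.getD s 0) (L.getD t 0) = entry rows s t) &&
        (decide (s = t) || !decide (L.getD s 0 = L.getD t 0))) &&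
    (List.range rows.length).any fun s => !decide (L.getD s 0 = s)

/-- all structures are certified to be rigid -/
def allCert (x ans : List Bool) : Bool :=
  (List.range (rowsOf x).length).all fun i => (List.range (rowsOf x).length).all fun j =>
    (List.range (rowsOf x).length).all fun a => (List.range (rowsOf x).length).all fun b =>
      decide (i = j) || certA x ans i j a b

/-- an automorphism is found -/
def found (x ans : List Bool) : Bool :=
  (List.range (rowsOf x).length).any fun i => (List.range (rowsOf x).length).any fun j =>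
    okAut (rowsOf x) ((List.range (rowsOf x).length).map fun a => imgA x ans i j a)

/-- the result, as a function of the input and of the answers -/
def decideA (x ans : List Bool) : List Bool :=
  if unbits (List (List Bool)) x = none then [false]
  else if okG (rowsOf x) = false then [false]
  else if allCert x ans = true then [false]
  else if found x ans = true then [true] else []

/-! ### it is computable in polynomial time -/

variable {α : Type} [TEnc α]

theorem prowsOf {x : α → List Bool} (hx : Poly x) : Poly (fun a => rowsOf (x a)) := by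
  refine (Poly.optCases (o := fun a => unbits (List (List Bool)) (x a))
    (g := fun _ => ([] : List (List Bool))) (h := fun _ r => r)
    (poly_unbits.comp hx) (NPC.Poly.const _) (Poly.snd Poly.id)).congr fun a => ?_
  unfold rowsOf
  cases unbits (List (List Bool)) (x a) <;> rfl

theorem ptrials {x : α → List Bool} (hx : Poly x) : UPoly (fun a => trials (x a)) := by
  have h := (UPoly.length hx).eval (Polynomial.C 20 * (Polynomial.X + Polynomial.C 1))
  simpa [trials] using h

theorem pbOfX {x : α → List Bool} (hx : Poly x) : UPoly (fun a => bOfX C (x a)) :=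
  UPoly.add (UPoly.length hx) (UPoly.const C)

theorem pqOfX {x : α → List Bool} (hx : Poly x) : UPoly (fun a => qOfX Q C (x a)) :=
  UPoly.eval (UPoly.add (UPoly.length hx) (UPoly.const C)) Q

theorem prnd {m b : α → ℕ} (hm : UPoly m) (hb : UPoly b) : UPoly (fun a => rnd (m a) (b a)) :=
  UPoly.length (Poly.natBits (ppow (pfact hm) hb))

theorem phlen {m k b : α → ℕ} (hm : UPoly m) (hk : UPoly k) (hb : UPoly b) :
    UPoly (fun a => hlen (m a) (k a) (b a)) :=
  (UPoly.add (pbeta hm hb) (UPoly.const 1)).mul (pblen hm hk hb)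

theorem ptlen {m k b q : α → ℕ} (hm : UPoly m) (hk : UPoly k) (hb : UPoly b) (hq : UPoly q) :
    UPoly (fun a => tlen (m a) (k a) (b a) (q a)) :=
  UPoly.add (phlen hm hk hb) (hq.mul (prnd hm hb))

theorem p2n {x : α → List Bool} (hx : Poly x) : UPoly (fun a => 2 * (rowsOf (x a)).length) := by
  have h := (UPoly.length (prowsOf hx)).eval (Polynomial.C 2 * Polynomial.X)
  simpa using h

theorem prOfX {x : α → List Bool} (hx : Poly x) : UPoly (fun a => rOfX Q C (x a)) :=
  ptlen (p2n hx) (UPoly.add (UPoly.length (prowsOf hx)) (UPoly.const 3)) (pbOfX C hx)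
    (pqOfX Q C hx)

theorem ptrial {p : α → Arg} {m k b q : α → ℕ} {u : α → List Bool} (hp : Poly p) (hm : UPoly m)
    (hk : UPoly k) (hb : UPoly b) (hq : UPoly q) (hu : Poly u) :
    Poly (fun a => trial (entA (p a)) (m a) (k a) (b a) (q a) (u a)) := by
  have h0 := (phlen hm hk hb).toPoly
  have h1 : Poly (fun a => (u a).take (hlen (m a) (k a) (b a))) := ptake hu h0
  have h2 : Poly (fun a => (u a).drop (hlen (m a) (k a) (b a))) := pdrop hu h0
  refine (Poly.append h1 (Poly.flatMap (l := fun a => List.range (q a))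
    (F := fun a j => hash (blen (m a) (k a) (b a)) (beta (m a) (b a) + 1)
      ((u a).take (hlen (m a) (k a) (b a))) (blkAll (entA (p a)) (m a) (b a)
        (valB ((((u a).drop (hlen (m a) (k a) (b a))).drop (j * rnd (m a) (b a))).take
          (rnd (m a) (b a))) % (m a).factorial ^ b a))) hq.range ?_)).congr fun a => ?_
  · have g : ∀ {δ : Type} [TEnc δ] {f : α → δ}, Poly f → Poly (fun y : α × ℕ => f y.1) :=
      fun hf => hf.comp (Poly.fst Poly.id)
    have gu : ∀ {f : α → ℕ}, UPoly f → UPoly (fun y : α × ℕ => f y.1) :=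
      fun hf => UPoly.comp hf (Poly.fst Poly.id)
    have c1 : Poly (fun y : α × ℕ => y.2) := Poly.snd Poly.id
    have hr := g (prnd hm hb).toPoly
    refine phash (g (pblen hm hk hb).toPoly) (UPoly.add (gu (pbeta hm hb)) (UPoly.const 1))
      (g h1) (pblkAll (g hp) (gu hm) (gu hb) ?_)
    exact Poly.mod (Poly.valBits (ptake (pdrop (g h2) (Poly.mul c1 hr)) hr))
      (g (ppow (pfact hm) hb))
  · unfold trial
    rw [blocks_eq_flatMap]

theorem pquest {w x : α → List Bool} {i j a b k : α → ℕ} (hw : Poly w) (hx : Poly x)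
    (hi : Poly i) (hj : Poly j) (ha : Poly a) (hb : Poly b) (hk : Poly k) :
    Poly (fun c => quest Q C (w c) (x c) (i c) (j c) (a c) (b c) (k c)) := by
  have hr := (prOfX Q C hx).toPoly
  refine ptrial (Poly.pair (prowsOf hx) (Poly.pair hi (Poly.pair hj (Poly.pair ha hb))))
    (p2n hx) (UPoly.add (UPoly.length (prowsOf hx)) (UPoly.const 3)) (pbOfX C hx)
    (pqOfX Q C hx) ?_
  exact ptake (pdrop hw (Poly.mul hk hr)) hr

theorem poly_questions : Poly (questions Q C) := by
  have hw : Poly (fun z : List Bool => (unpair z).1) := Poly.fst poly_unpair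
  have hx : Poly (fun z : List Bool => (unpair z).2) := Poly.snd poly_unpair
  have hn : UPoly (fun z : List Bool => (rowsOf (unpair z).2).length) :=
    UPoly.length (prowsOf hx)
  have hK : UPoly (fun z : List Bool => trials (unpair z).2) := ptrials hx
  unfold questions
  refine NPC.Poly.map (F := fun (z : List Bool) N => questN Q C (unpair z).1 (unpair z).2 N)
    (hn.mul hn |>.mul hn |>.mul hn |>.mul hK).range ?_
  have g : ∀ {δ : Type} [TEnc δ] {f : List Bool → δ}, Poly f →
      Poly (fun y : List Bool × ℕ => f y.1) := fun hf => hf.comp (Poly.fst Poly.id)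
  have c1 : Poly (fun y : List Bool × ℕ => y.2) := Poly.snd Poly.id
  have n1 := g hn.toPoly
  have k1 := g hK.toPoly
  have d1 := Poly.div c1 k1
  have d2 := Poly.div d1 n1
  have d3 := Poly.div d2 n1
  have d4 := Poly.div d3 n1
  exact pquest Q C (g hw) (g hx) d4 (Poly.mod d3 n1) (Poly.mod d2 n1) (Poly.mod d1 n1)
    (Poly.mod c1 k1)

theorem pcertA {x ans : α → List Bool} {i j a b : α → ℕ} (hx : Poly x) (hans : Poly ans)
    (hi : Poly i) (hj : Poly j) (ha : Poly a) (hb : Poly b) :
    Poly (fun c => certA (x c) (ans c) (i c) (j c) (a c) (b c)) := by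
  unfold certA
  refine Poly.any (p := fun c k => (ans c).getD
    (qIdx (rowsOf (x c)).length (trials (x c)) (i c) (j c) (a c) (b c) k) false)
    (ptrials hx).range ?_
  have g : ∀ {δ : Type} [TEnc δ] {f : α → δ}, Poly f → Poly (fun y : α × ℕ => f y.1) :=
    fun hf => hf.comp (Poly.fst Poly.id)
  have c1 : Poly (fun y : α × ℕ => y.2) := Poly.snd Poly.id
  have n1 := g (Poly.length (prowsOf hx))
  refine Poly.getD (g hans) ?_ (NPC.Poly.const false)
  unfold qIdx
  exact Poly.add (Poly.mul (Poly.add (Poly.mul (Poly.add (Poly.mul (Poly.add (Poly.mul (g hi) n1)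
    (g hj)) n1) (g ha)) n1) (g hb)) (g (ptrials hx).toPoly)) c1

theorem pimgA {x ans : α → List Bool} {i j a : α → ℕ} (hx : Poly x) (hans : Poly ans)
    (hi : Poly i) (hj : Poly j) (ha : Poly a) :
    Poly (fun c => imgA (x c) (ans c) (i c) (j c) (a c)) := by
  have g : ∀ {δ : Type} [TEnc δ] {f : α → δ}, Poly f → Poly (fun y : α × ℕ => f y.1) :=
    fun hf => hf.comp (Poly.fst Poly.id)
  unfold imgA
  refine Poly.head?_getD (Poly.filter
    (p := fun c b => !certA (x c) (ans c) (i c) (j c) (a c) b)
    (UPoly.length (prowsOf hx)).range ?_) 0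
  exact Poly.not (pcertA (g hx) (g hans) (g hi) (g hj) (g ha) (Poly.snd Poly.id))

theorem pokG {r : α → List (List Bool)} (hr : Poly r) : Poly (fun c => okG (r c)) := by
  have g : ∀ {δ : Type} [TEnc δ] {f : α → δ}, Poly f → Poly (fun y : α × ℕ => f y.1) :=
    fun hf => hf.comp (Poly.fst Poly.id)
  unfold okG
  refine Poly.and (Poly.all (p := fun c (l : List Bool) => decide (l.length = (r c).length)) hr
    (Poly.decide_eq (Poly.length (Poly.snd Poly.id)) (Poly.length (hr.comp (Poly.fst Poly.id)))))
    ?_
  refine Poly.all (p := fun c s => (List.range (r c).length).all fun t =>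
      decide (entry (r c) s t = entry (r c) t s) && !(entry (r c) s s))
    (UPoly.length hr).range ?_
  refine Poly.all (p := fun (y : α × ℕ) t =>
      decide (entry (r y.1) y.2 t = entry (r y.1) t y.2) && !(entry (r y.1) y.2 y.2))
    (UPoly.length (g hr)).range ?_
  have r2 : Poly (fun y : (α × ℕ) × ℕ => r y.1.1) := hr.comp (Poly.fst (Poly.fst Poly.id))
  have s2 : Poly (fun y : (α × ℕ) × ℕ => y.1.2) := Poly.snd (Poly.fst Poly.id)
  have t2 : Poly (fun y : (α × ℕ) × ℕ => y.2) := Poly.snd Poly.id
  exact Poly.and (Poly.decide_eq (pentry r2 s2 t2) (pentry r2 t2 s2))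
    (Poly.not (pentry r2 s2 s2))

theorem pokAut {r : α → List (List Bool)} {L : α → List ℕ} (hr : Poly r) (hL : Poly L) :
    Poly (fun c => okAut (r c) (L c)) := by
  have g : ∀ {δ : Type} [TEnc δ] {f : α → δ}, Poly f → Poly (fun y : α × ℕ => f y.1) :=
    fun hf => hf.comp (Poly.fst Poly.id)
  have c1 : Poly (fun y : α × ℕ => y.2) := Poly.snd Poly.id
  have z : ∀ {β : Type} [TEnc β], Poly (fun _ : β => 0) := fun {β} _ => NPC.Poly.const 0
  unfold okAut
  refine Poly.and ?_ ?_
  · refine Poly.all (p := fun c s => decide ((L c).getD s 0 < (r c).length) &&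
      (List.range (r c).length).all fun t =>
        decide (entry (r c) ((L c).getD s 0) ((L c).getD t 0) = entry (r c) s t) &&
          (decide (s = t) || !decide ((L c).getD s 0 = (L c).getD t 0)))
      (UPoly.length hr).range ?_
    refine Poly.and (Poly.decide_lt (Poly.getD (g hL) c1 z) (Poly.length (g hr))) ?_
    refine Poly.all (p := fun (y : α × ℕ) t =>
        decide (entry (r y.1) ((L y.1).getD y.2 0) ((L y.1).getD t 0) = entry (r y.1) y.2 t) &&
          (decide (y.2 = t) || !decide ((L y.1).getD y.2 0 = (L y.1).getD t 0)))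
      (UPoly.length (g hr)).range ?_
    have r2 : Poly (fun y : (α × ℕ) × ℕ => r y.1.1) := hr.comp (Poly.fst (Poly.fst Poly.id))
    have l2 : Poly (fun y : (α × ℕ) × ℕ => L y.1.1) := hL.comp (Poly.fst (Poly.fst Poly.id))
    have s2 : Poly (fun y : (α × ℕ) × ℕ => y.1.2) := Poly.snd (Poly.fst Poly.id)
    have t2 : Poly (fun y : (α × ℕ) × ℕ => y.2) := Poly.snd Poly.id
    have ls := Poly.getD l2 s2 z
    have lt := Poly.getD l2 t2 z
    exact Poly.and (Poly.decide_eq (pentry r2 ls lt) (pentry r2 s2 t2))
      (Poly.or (Poly.decide_eq s2 t2) (Poly.not (Poly.decide_eq ls lt)))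
  · exact Poly.any (p := fun c s => !decide ((L c).getD s 0 = s)) (UPoly.length hr).range
      (Poly.not (Poly.decide_eq (Poly.getD (g hL) c1 z) c1))

theorem pallCert {x ans : α → List Bool} (hx : Poly x) (hans : Poly ans) :
    Poly (fun c => allCert (x c) (ans c)) := by
  unfold allCert
  refine Poly.all (p := fun c i => (List.range (rowsOf (x c)).length).all fun j =>
    (List.range (rowsOf (x c)).length).all fun a => (List.range (rowsOf (x c)).length).all fun b =>
      decide (i = j) || certA (x c) (ans c) i j a b) (UPoly.length (prowsOf hx)).range ?_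
  have x1 : Poly (fun y : α × ℕ => x y.1) := hx.comp (Poly.fst Poly.id)
  refine Poly.all (p := fun (y : α × ℕ) j =>
    (List.range (rowsOf (x y.1)).length).all fun a =>
    (List.range (rowsOf (x y.1)).length).all fun b =>
      decide (y.2 = j) || certA (x y.1) (ans y.1) y.2 j a b) (UPoly.length (prowsOf x1)).range ?_
  have x2 : Poly (fun y : (α × ℕ) × ℕ => x y.1.1) := x1.comp (Poly.fst Poly.id)
  refine Poly.all (p := fun (y : (α × ℕ) × ℕ) a =>
    (List.range (rowsOf (x y.1.1)).length).all fun b =>
      decide (y.1.2 = y.2) || certA (x y.1.1) (ans y.1.1) y.1.2 y.2 a b)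
      (UPoly.length (prowsOf x2)).range ?_
  have x3 : Poly (fun y : ((α × ℕ) × ℕ) × ℕ => x y.1.1.1) := x2.comp (Poly.fst Poly.id)
  refine Poly.all (p := fun (y : ((α × ℕ) × ℕ) × ℕ) b =>
      decide (y.1.1.2 = y.1.2) || certA (x y.1.1.1) (ans y.1.1.1) y.1.1.2 y.1.2 y.2 b)
      (UPoly.length (prowsOf x3)).range ?_
  have x4 : Poly (fun y : (((α × ℕ) × ℕ) × ℕ) × ℕ => x y.1.1.1.1) := x3.comp (Poly.fst Poly.id)
  have a4 : Poly (fun y : (((α × ℕ) × ℕ) × ℕ) × ℕ => ans y.1.1.1.1) :=
    hans.comp (Poly.fst (Poly.fst (Poly.fst (Poly.fst Poly.id))))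
  have i4 : Poly (fun y : (((α × ℕ) × ℕ) × ℕ) × ℕ => y.1.1.1.2) :=
    Poly.snd (Poly.fst (Poly.fst (Poly.fst Poly.id)))
  have j4 : Poly (fun y : (((α × ℕ) × ℕ) × ℕ) × ℕ => y.1.1.2) :=
    Poly.snd (Poly.fst (Poly.fst Poly.id))
  have k4 : Poly (fun y : (((α × ℕ) × ℕ) × ℕ) × ℕ => y.1.2) := Poly.snd (Poly.fst Poly.id)
  exact Poly.or (Poly.decide_eq i4 j4) (pcertA x4 a4 i4 j4 k4 (Poly.snd Poly.id))

theorem pfound {x ans : α → List Bool} (hx : Poly x) (hans : Poly ans) :
    Poly (fun c => found (x c) (ans c)) := by
  unfold found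
  refine Poly.any (p := fun c i => (List.range (rowsOf (x c)).length).any fun j =>
    okAut (rowsOf (x c)) ((List.range (rowsOf (x c)).length).map fun a =>
      imgA (x c) (ans c) i j a)) (UPoly.length (prowsOf hx)).range ?_
  have x1 : Poly (fun y : α × ℕ => x y.1) := hx.comp (Poly.fst Poly.id)
  refine Poly.any (p := fun (y : α × ℕ) j =>
    okAut (rowsOf (x y.1)) ((List.range (rowsOf (x y.1)).length).map fun a =>
      imgA (x y.1) (ans y.1) y.2 j a)) (UPoly.length (prowsOf x1)).range ?_
  have x2 : Poly (fun y : (α × ℕ) × ℕ => x y.1.1) := x1.comp (Poly.fst Poly.id)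
  refine pokAut (prowsOf x2) ?_
  refine NPC.Poly.map (F := fun (y : (α × ℕ) × ℕ) a => imgA (x y.1.1) (ans y.1.1) y.1.2 y.2 a)
    (UPoly.length (prowsOf x2)).range ?_
  have x3 : Poly (fun y : ((α × ℕ) × ℕ) × ℕ => x y.1.1.1) := x2.comp (Poly.fst Poly.id)
  have a3 : Poly (fun y : ((α × ℕ) × ℕ) × ℕ => ans y.1.1.1) :=
    hans.comp (Poly.fst (Poly.fst (Poly.fst Poly.id)))
  exact pimgA x3 a3 (Poly.snd (Poly.fst (Poly.fst Poly.id))) (Poly.snd (Poly.fst Poly.id))
    (Poly.snd Poly.id)

theorem pdecideA {x ans : α → List Bool} (hx : Poly x) (hans : Poly ans) :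
    Poly (fun c => decideA (x c) (ans c)) := by
  unfold decideA
  refine Poly.ite (Poly.decide_eq (poly_unbits.comp hx) (NPC.Poly.const _)) (NPC.Poly.const _)
    (Poly.ite (Poly.decide_eq (pokG (prowsOf hx)) (NPC.Poly.const _)) (NPC.Poly.const _)
      (Poly.ite (Poly.decide_bool (pallCert hx hans)) (NPC.Poly.const _)
        (Poly.ite (Poly.decide_bool (pfound hx hans)) (NPC.Poly.const _) (NPC.Poly.const _))))

/-- the algorithm -/
def algV (A : Oracle) (z : List Bool) : List Bool :=
  decideA (unpair z).2 ((questions Q C z).map A)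

theorem isFP_algV (A : Oracle) : IsFP A (algV Q C A) := by
  refine IsFP.tt (A := A) (Q := questions Q C)
    (H := fun y : List Bool × List Bool => decideA (unpair y.1).2 y.2) (poly_questions Q C) ?_
  exact pdecideA (Poly.snd (poly_unpair.comp (Poly.fst Poly.id))) (Poly.snd Poly.id)

end

end Pool.Agent.TH677.GA
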