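import Pool.Agent.TH677.GA.KT

/-!
# The strings made from structures with automorphisms have small KT complexity
-/

set_option autoImplicit false

namespace Pool.Agent.TH677.GA

open Pool.Agent.NPC Pool.Agent.H622R2

/-- the parameters in the header: the structure, two elements, the number of arrangements in a
block (in unary), the hash function, the number of blocks -/
abbrev Params : Type := Arg × (ℕ × ℕ) × List Bool × List Bool × ℕ

/-- decoding of the header -/
def getP (h : List Bool) : Params :=
  match unbits Params h with
  | some θ => θ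
  | none => (([], 0, 0, 0, 0), (0, 0), [], [], 0)

theorem getP_bits (θ : Params) : getP (bits θ) = θ := by
  unfold getP
  rw [unbits_bits]

theorem pgetP {α : Type} [TEnc α] {h : α → List Bool} (hh : Poly h) :
    Poly (fun a => getP (h a)) := by
  refine (Poly.optCases (o := fun a => unbits Params (h a))
    (g := fun _ => ((([], 0, 0, 0, 0), (0, 0), [], [], 0) : Params)) (h := fun _ θ => θ)
    (poly_unbits.comp hh) (NPC.Poly.const _) (Poly.snd Poly.id)).congr fun a => ?_
  unfold getP
  cases unbits Params (h a) <;> rfl

/-- decoding of the input: the position (counted from `0`) -/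
def inPos (x : List Bool) : ℕ :=
  match x with
  | [] => 0
  | false :: l => valB l - 1
  | true :: l => valB l.tail - 1

/-- decoding of the input: the symbol -/
def inSym (x : List Bool) : Option Bool :=
  match x with
  | [] => none
  | false :: _ => none
  | true :: l => l.head?

theorem inPos_inCode (i : ℕ) (b : Option Bool) : inPos (inCode (i + 1) b) = i := by
  cases b <;> simp [inPos, inCode, valB_bits]

theorem inSym_inCode (i : ℕ) (b : Option Bool) : inSym (inCode i b) = b := by
  cases b <;> simp [inSym, inCode]

theorem pinPos {α : Type} [TEnc α] {x : α → List Bool} (hx : Poly x) :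
    Poly (fun a => inPos (x a)) := by
  have h1 : Poly (fun a => if (x a).head? = some true then valB (x a).tail.tail - 1 else
      valB (x a).tail - 1) :=
    Poly.ite (Poly.decide_eq (Poly.head? hx) (NPC.Poly.const _))
      (Poly.sub (Poly.valBits (Poly.tail (Poly.tail hx))) (NPC.Poly.const 1))
      (Poly.sub (Poly.valBits (Poly.tail hx)) (NPC.Poly.const 1))
  refine h1.congr fun a => ?_
  unfold inPos
  cases x a with
  | nil => rfl
  | cons b l => cases b <;> rfl

theorem pinSym {α : Type} [TEnc α] {x : α → List Bool} (hx : Poly x) :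
    Poly (fun a => inSym (x a)) := by
  have h1 : Poly (fun a => if (x a).head? = some true then (x a).tail.head? else none) :=
    Poly.ite (Poly.decide_eq (Poly.head? hx) (NPC.Poly.const _))
      (Poly.head? (Poly.tail hx)) (NPC.Poly.const _)
  refine h1.congr fun a => ?_
  unfold inSym
  cases x a with
  | nil => rfl
  | cons b l => cases b <;> rfl

/-- the number of elements of the structure -/
def mOf (θ : Params) : ℕ := 2 * θ.1.1.length

/-- the width of the entries -/
def kOf (θ : Params) : ℕ := θ.1.1.length + 3

/-- the number of bits per block -/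
def bOf (θ : Params) : ℕ := beta (mOf θ) θ.2.2.1.length

/-- where the data of the block are -/
def offF (y : List Bool × List Bool) : ℕ :=
  (inPos y.2 - (getP y.1).2.2.2.1.length) / (bOf (getP y.1) + 1) * bOf (getP y.1)

/-- their length -/
def lenF (y : List Bool × List Bool) : ℕ := bOf (getP y.1)

/-- the symbol at position `i` of the string with parameters `θ`, when `c` are the data of its
block -/
def symF (θ : Params) (i : ℕ) (c : List Bool) : Option Bool :=
  if i < θ.2.2.2.1.length then θ.2.2.2.1[i]?
  else if (i - θ.2.2.2.1.length) / (bOf θ + 1) < θ.2.2.2.2 then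
    (hash (blen (mOf θ) (kOf θ) θ.2.2.1.length) (bOf θ + 1) θ.2.2.2.1
      (blkHalf (entA θ.1) (mOf θ) θ.2.1.1 θ.2.1.2 θ.2.2.1.length (valB c)))[
        (i - θ.2.2.2.1.length) % (bOf θ + 1)]?
  else none

/-- the verdict -/
def verF (y : List Bool × List Bool × List Bool) : Bool :=
  decide (symF (getP y.1) (inPos y.2.1) y.2.2 = inSym y.2.1)

section

variable {α : Type} [TEnc α] {θ : α → Params}

theorem pmOf (h : Poly θ) : UPoly (fun a => mOf (θ a)) := by
  have h1 := (UPoly.length (Poly.fst (Poly.fst h))).eval (Polynomial.C 2 * Polynomial.X)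
  simpa [mOf] using h1

theorem pkOf (h : Poly θ) : UPoly (fun a => kOf (θ a)) := by
  exact UPoly.add (UPoly.length (Poly.fst (Poly.fst h))) (UPoly.const 3)

theorem pbeta {m b : α → ℕ} (hm : UPoly m) (hb : UPoly b) : UPoly (fun a => beta (m a) (b a)) :=
  UPoly.length (Poly.natBits (ppow (Poly.div (pfact hm) (NPC.Poly.const 2)) hb))

theorem pbOf (h : Poly θ) : UPoly (fun a => bOf (θ a)) :=
  pbeta (pmOf h) (UPoly.length (Poly.fst (Poly.snd (Poly.snd h))))

theorem pblen {m k b : α → ℕ} (hm : UPoly m) (hk : UPoly k) (hb : UPoly b) :
    UPoly (fun a => blen (m a) (k a) (b a)) := hb.mul (hm.mul (hm.mul hk))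

theorem prest {m u v : α → ℕ} (hm : UPoly m) (hu : Poly u) (hv : Poly v) :
    Poly (fun a => rest (m a) (u a) (v a)) := by
  refine Poly.filter (p := fun a y => decide (y ≠ u a ∧ y ≠ v a)) hm.range ?_
  have c1 : Poly (fun y : α × ℕ => y.2) := Poly.snd Poly.id
  exact Poly.decide_and (Poly.decide_not (Poly.decide_eq c1 (hu.comp (Poly.fst Poly.id))))
    (Poly.decide_not (Poly.decide_eq c1 (hv.comp (Poly.fst Poly.id))))

theorem pblkHalf {p : α → Arg} {m u v b N : α → ℕ} (hp : Poly p) (hm : UPoly m) (hu : Poly u)
    (hv : Poly v) (hb : UPoly b) (hN : Poly N) :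
    Poly (fun a => blkHalf (entA (p a)) (m a) (u a) (v a) (b a) (N a)) := by
  unfold blkHalf
  refine Poly.flatMap (F := fun a L => mat (entA (p a)) L) ?_
    (pmat (hp.comp (Poly.fst Poly.id)) (Poly.snd Poly.id))
  exact pblk (prest hm hu hv) (Poly.cons hu (Poly.cons hv (NPC.Poly.const []))) hb hN

theorem pblkAll {p : α → Arg} {m b N : α → ℕ} (hp : Poly p) (hm : UPoly m)
    (hb : UPoly b) (hN : Poly N) :
    Poly (fun a => blkAll (entA (p a)) (m a) (b a) (N a)) := by
  unfold blkAll
  refine Poly.flatMap (F := fun a L => mat (entA (p a)) L) ?_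
    (pmat (hp.comp (Poly.fst Poly.id)) (Poly.snd Poly.id))
  exact pblk hm.range (NPC.Poly.const []) hb hN

theorem psymF {i : α → ℕ} {c : α → List Bool} (h : Poly θ) (hi : Poly i) (hc : Poly c) :
    Poly (fun a => symF (θ a) (i a) (c a)) := by
  have hs : Poly (fun a => (θ a).2.2.2.1) := Poly.fst (Poly.snd (Poly.snd (Poly.snd h)))
  have hb : UPoly (fun a => (θ a).2.2.1.length) :=
    UPoly.length (Poly.fst (Poly.snd (Poly.snd h)))
  have hB : UPoly (fun a => bOf (θ a) + 1) := UPoly.add (pbOf h) (UPoly.const 1)
  have ht : Poly (fun a => i a - (θ a).2.2.2.1.length) := Poly.sub hi (Poly.length hs)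
  have hu : Poly (fun a => (θ a).2.1.1) := Poly.fst (Poly.fst (Poly.snd h))
  have hv : Poly (fun a => (θ a).2.1.2) := Poly.snd (Poly.fst (Poly.snd h))
  unfold symF
  refine Poly.ite (Poly.decide_lt hi (Poly.length hs)) (Poly.getElem? hs hi)
    (Poly.ite (Poly.decide_lt (Poly.div ht hB.toPoly)
      (Poly.snd (Poly.snd (Poly.snd (Poly.snd h))))) ?_ (NPC.Poly.const none))
  refine Poly.getElem? ?_ (Poly.mod ht hB.toPoly)
  exact phash (pblen (pmOf h) (pkOf h) hb).toPoly hB hs
    (pblkHalf (Poly.fst h) (pmOf h) hu hv hb (Poly.valBits hc))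

end

theorem poly_offF : Poly offF := by
  have h1 : Poly (fun y : List Bool × List Bool => getP y.1) := pgetP (Poly.fst Poly.id)
  have h2 : Poly (fun y : List Bool × List Bool => inPos y.2) := pinPos (Poly.snd Poly.id)
  have h3 := (pbOf h1).toPoly
  exact Poly.mul (Poly.div (Poly.sub h2 (Poly.length (Poly.fst (Poly.snd (Poly.snd
    (Poly.snd h1)))))) (Poly.succ h3)) h3

theorem upoly_lenF : UPoly lenF := pbOf (pgetP (Poly.fst Poly.id))

theorem poly_verF : Poly verF := by
  have h1 : Poly (fun y : List Bool × List Bool × List Bool => getP y.1) :=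
    pgetP (Poly.fst Poly.id)
  have hx : Poly (fun y : List Bool × List Bool × List Bool => y.2.1) :=
    Poly.fst (Poly.snd Poly.id)
  exact Poly.decide_eq (psymF h1 (pinPos hx) (Poly.snd (Poly.snd Poly.id))) (pinSym hx)

/-! ### the data -/

theorem flatMap_getElem? {β : Type} {l : ℕ} (f : ℕ → List β) (hf : ∀ j, (f j).length = l)
    {q j r : ℕ} (hj : j < q) (hr : r < l) :
    ((List.range q).flatMap f)[j * l + r]? = (f j)[r]? := by
  obtain ⟨d, rfl⟩ := Nat.exists_eq_add_of_lt hj
  have h1 : (List.range (j + d + 1)).flatMap f =
      (List.range j).flatMap f ++ (f j ++ ((List.range d).map (fun i => j + 1 + i)).flatMap f) := by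
    rw [show j + d + 1 = (j + 1) + d by ring, List.range_add, List.flatMap_append,
      List.range_succ, List.flatMap_append, List.append_assoc]
    simp
  have h2 : ((List.range j).flatMap f).length = j * l := by
    rw [flatMap_length _ _ hf, List.length_range]
  rw [h1, List.getElem?_append_right (by omega), h2, Nat.add_sub_cancel_left,
    List.getElem?_append_left (by rw [hf]; exact hr)]

theorem getD_eq (l : List Bool) (n : ℕ) : l.getD n false = (l[n]?).getD false :=
  List.getD_eq_getElem?_getD

/-- the number `N` with `l` binary digits -/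
def encN (l N : ℕ) : List Bool := N.bits ++ List.replicate (l - N.bits.length) false

theorem valB_replicate (n : ℕ) : valB (List.replicate n false) = 0 := by
  induction n with
  | zero => rfl
  | succ n ih => simp [List.replicate_succ, ih]

theorem valB_encN (l N : ℕ) : valB (encN l N) = N := by
  rw [encN, valB_append, valB_bits, valB_replicate]
  simp

theorem bits_length_mono {m n : ℕ} (h : m ≤ n) : m.bits.length ≤ n.bits.length := by
  rw [Nat.size_eq_bits_len, Nat.size_eq_bits_len]
  exact Nat.size_le_size h

theorem encN_length {l N : ℕ} (h : N.bits.length ≤ l) : (encN l N).length = l := by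
  rw [encN, List.length_append, List.length_replicate]
  omega

theorem part_flatMap {l q : ℕ} (f : ℕ → List Bool) (hf : ∀ j, (f j).length = l) {j : ℕ}
    (hj : j < q) : part ((List.range q).flatMap f) (j * l) l = f j := by
  unfold part
  apply List.ext_getElem?
  intro r
  rw [List.getElem?_map]
  rcases Nat.lt_or_ge r l with h | h
  · rw [List.getElem?_range h, Option.map_some, getD_eq, flatMap_getElem? f hf hj h,
      List.getElem?_eq_getElem (by rw [hf]; exact h)]
    rfl
  · rw [List.getElem?_eq_none (by simpa using h), List.getElem?_eq_none (by rw [hf]; exact h)]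
    rfl

/-- the string of a trial for a structure with an automorphism that moves `u`, as computed by the
machine -/
theorem trial_sym {p : Arg} {u : ℕ} {π : ℕ → ℕ} (hπ : IsAut (entA p) (2 * p.1.length) π)
    (hu : u < 2 * p.1.length) (hne : π u ≠ u) (b q : ℕ) (w : List Bool)
    (hw : w.length = tlen (2 * p.1.length) (p.1.length + 3) b q) :
    ∃ e : List Bool, e.length = q * beta (2 * p.1.length) b ∧
      ∀ i ≤ xlen (2 * p.1.length) (p.1.length + 3) b q, ∀ c,
        verF (bits ((p, (u, π u), List.replicate b true,
          w.take (hlen (2 * p.1.length) (p.1.length + 3) b), q) : Params), inCode (i + 1) c,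
          part e (offF (bits ((p, (u, π u), List.replicate b true,
            w.take (hlen (2 * p.1.length) (p.1.length + 3) b), q) : Params),
              inCode (i + 1) c))
            (lenF (bits ((p, (u, π u), List.replicate b true,
            w.take (hlen (2 * p.1.length) (p.1.length + 3) b), q) : Params),
              inCode (i + 1) c))) =
        decide ((trial (entA p) (2 * p.1.length) (p.1.length + 3) b q w)[i]? = c) := by
  set m := 2 * p.1.length with hm
  set k := p.1.length + 3 with hk
  set hs := w.take (hlen m k b) with hhs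
  set θ : Params := (p, (u, π u), List.replicate b true, hs, q) with hθ
  have hsl : hs.length = hlen m k b := by
    rw [hhs, List.length_take, hw, tlen]
    omega
  have hex : ∀ N, ∃ N' < (m.factorial / 2) ^ b,
      blkHalf (entA p) m u (π u) b N' = blkAll (entA p) m b N :=
    fun N => exists_blkHalf hπ hu hne N
  choose f hf1 hf2 using hex
  -- the chunks
  set ch : ℕ → List Bool := fun j => ((w.drop (hlen m k b)).drop (j * rnd m b)).take (rnd m b)
    with hch
  set N : ℕ → ℕ := fun j => f (valB (ch j) % m.factorial ^ b) with hN
  have hNl : ∀ j, (N j).bits.length ≤ beta m b := fun j => bits_length_mono (hf1 _).le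
  have hdl : ∀ j, (encN (beta m b) (N j)).length = beta m b := fun j => encN_length (hNl j)
  set g : ℕ → List Bool := fun j => hash (blen m k b) (beta m b + 1) hs
    (blkHalf (entA p) m u (π u) b (N j)) with hg
  have hgl : ∀ j, (g j).length = beta m b + 1 := fun j => hash_length _ _ _ _
  have htr : trial (entA p) m k b q w = hs ++ (List.range q).flatMap g := by
    unfold trial
    rw [← hhs, blocks_eq_flatMap]
    congr 1
    apply List.flatMap_congr
    intro j _
    rw [hg]
    simp only
    rw [hN]
    simp only
    rw [hf2]
  have hmO : mOf θ = m := rfl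
  have hkO : kOf θ = k := rfl
  have hbl : θ.2.2.1.length = b := by rw [hθ]; simp
  have hbO : bOf θ = beta m b := by unfold bOf; rw [hmO, hbl]
  refine ⟨(List.range q).flatMap fun j => encN (beta m b) (N j), ?_, fun i hi c => ?_⟩
  · rw [flatMap_length _ _ hdl, List.length_range]
  · unfold verF offF lenF
    simp only [getP_bits, inPos_inCode, inSym_inCode]
    have hh : θ.2.2.2.1 = hs := rfl
    have hq : θ.2.2.2.2 = q := rfl
    unfold symF
    rw [hh, hq, hmO, hkO, hbl, hbO, htr]
    by_cases h1 : i < hs.length
    · rw [if_pos h1, List.getElem?_append_left h1]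
    · rw [if_neg h1, List.getElem?_append_right (by omega)]
      set t := i - hs.length with ht
      have hdm : t / (beta m b + 1) * (beta m b + 1) + t % (beta m b + 1) = t :=
        Nat.div_add_mod' t (beta m b + 1)
      have hml : t % (beta m b + 1) < beta m b + 1 := Nat.mod_lt _ (Nat.succ_pos _)
      by_cases h2 : t / (beta m b + 1) < q
      · rw [if_pos h2, part_flatMap _ hdl h2, valB_encN]
        have h3 := flatMap_getElem? g hgl h2 hml
        rw [hdm] at h3
        rw [h3]
      · rw [if_neg h2]
        have h3 : ((List.range q).flatMap g)[t]? = none := by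
          rw [List.getElem?_eq_none]
          rw [flatMap_length _ _ hgl, List.length_range]
          have h4 : q * (beta m b + 1) ≤ t / (beta m b + 1) * (beta m b + 1) :=
            Nat.mul_le_mul_right _ (not_lt.1 h2)
          omega
        rw [h3]

/-- the upper bound for the KT complexity of the strings made from structures with
automorphisms -/
theorem KT_trial {U : Machine} (hU : U.Universal) : ∃ P : Polynomial ℕ,
    ∀ (p : Arg) (u : ℕ) (π : ℕ → ℕ), IsAut (entA p) (2 * p.1.length) π → u < 2 * p.1.length →
      π u ≠ u → ∀ (b q : ℕ) (w : List Bool),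
      w.length = tlen (2 * p.1.length) (p.1.length + 3) b q →
      U.KT (trial (entA p) (2 * p.1.length) (p.1.length + 3) b q w) ≤
        ((q * beta (2 * p.1.length) b +
          P.eval (sz ((p, (u, π u), List.replicate b true,
            w.take (hlen (2 * p.1.length) (p.1.length + 3) b), q) : Params) +
            (xlen (2 * p.1.length) (p.1.length + 3) b q + 1).bits.length) : ℕ) : ℕ∞) := by
  obtain ⟨P, hP⟩ := KT_le hU poly_offF upoly_lenF poly_verF
  refine ⟨2 * Polynomial.X + P, fun p u π hπ hu hne b q w hw => ?_⟩
  obtain ⟨e, he, hsym⟩ := trial_sym hπ hu hne b q w hw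
  have hxl := trial_length (entA p) _ _ b q w hw
  have h1 := hP (bits ((p, (u, π u), List.replicate b true,
            w.take (hlen (2 * p.1.length) (p.1.length + 3) b), q) : Params)) e
    (trial (entA p) (2 * p.1.length) (p.1.length + 3) b q w) (by
      rw [hxl]
      exact hsym)
  refine h1.trans ?_
  rw [Nat.cast_le, hxl, he, bits_length]
  simp only [Polynomial.eval_add, Polynomial.eval_mul, Polynomial.eval_ofNat,
    Polynomial.eval_X]
  omega

end Pool.Agent.TH677.GA
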