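import Pool.Agent.TH677.GA.App

/-!
# There are many KT-random strings; the choice of the parameters
-/

set_option autoImplicit false

namespace Pool.Agent.TH677.GA

open Pool.Agent.NPC Pool.Agent.H622R2

theorem exists_describes {U : Machine} {x : List Bool} (h : U.RKT x = false) :
    ∃ d t, U.Describes d t x ∧ d.length + t < x.length := by
  unfold Machine.RKT at h
  rw [decide_eq_false_iff_not, not_le] at h
  unfold Machine.KT at h
  rw [iInf_lt_iff] at h
  obtain ⟨d, h⟩ := h
  rw [iInf_lt_iff] at h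
  obtain ⟨t, h⟩ := h
  rw [iInf_lt_iff] at h
  obtain ⟨h1, h2⟩ := h
  exact ⟨d, t, h1, by exact_mod_cast h2⟩

theorem describes_unique {U : Machine} {d x x' : List Bool} {t t' : ℕ}
    (h : U.Describes d t x) (h' : U.Describes d t' x') (hl : x.length = x'.length) : x = x' := by
  have key : ∀ {y y' : List Bool} {s s' : ℕ}, U.Describes d s y → U.Describes d s' y' →
      y.length = y'.length → s ≤ s' → y = y' := by
    intro y y' s s' g g' gl hs
    apply List.ext_getElem?
    intro i
    rcases Nat.lt_or_ge i y.length with hi | hi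
    · have h1 := (g (i + 1) (y[i]?) (by omega) (by omega)).2 (by rw [Nat.add_sub_cancel])
      obtain ⟨r, hr, h2⟩ := h1
      have h3 : U.Accepts d (i + 1) (y[i]?) s' := ⟨r, hr.trans hs, h2⟩
      have h4 := (g' (i + 1) (y[i]?) (by omega) (by omega)).1 h3
      rw [Nat.add_sub_cancel] at h4
      exact h4.symm
    · rw [List.getElem?_eq_none hi, List.getElem?_eq_none (by omega)]
  rcases le_total t t' with h1 | h1
  · exact key h h' hl h1
  · exact (key h' h hl.symm h1).symm

theorem describes_pos {U : Machine} {d x : List Bool} {t : ℕ} (h : U.Describes d t x) :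
    1 ≤ t := by
  obtain ⟨s, hs, h1⟩ := (h 1 (x[0]?) le_rfl (by omega)).2 rfl
  exact (U.pos _ _ _ _ _ h1).trans hs

/-- at least half of the strings of each positive length are KT-random -/
theorem sum_RKT (U : Machine) {N : ℕ} (hN : 1 ≤ N) :
    (2 : ℝ) ^ N / 2 ≤ ∑ x ∈ Bits N, if U.RKT x = true then (1 : ℝ) else 0 := by
  classical
  set S := (Bits N).filter (fun x => U.RKT x = false) with hS
  have hch : ∀ x ∈ S, ∃ d t, U.Describes d t x ∧ d.length + t < N := by
    intro x hx
    rw [hS, Finset.mem_filter, mem_Bits] at hx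
    obtain ⟨d, t, h1, h2⟩ := exists_describes hx.2
    exact ⟨d, t, h1, hx.1 ▸ h2⟩
  choose! D T hD1 hD2 using hch
  have hcard : S.card ≤ ((Finset.range (N - 1)).biUnion Bits).card := by
    apply Finset.card_le_card_of_injOn D
    · intro x hx
      rw [Finset.mem_coe] at hx
      have h1 := describes_pos (hD1 x hx)
      have h2 := hD2 x hx
      rw [Finset.mem_coe, Finset.mem_biUnion]
      exact ⟨(D x).length, Finset.mem_range.2 (by omega), mem_Bits.2 rfl⟩
    · intro x hx x' hx' h
      rw [Finset.mem_coe] at hx hx'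
      have h1 := hD1 x hx
      rw [h] at h1
      have l1 : x.length = N := mem_Bits.1 (Finset.mem_filter.1 hx).1
      have l2 : x'.length = N := mem_Bits.1 (Finset.mem_filter.1 hx').1
      exact describes_unique h1 (hD1 x' hx') (l1.trans l2.symm)
  have hcard2 : ((Finset.range (N - 1)).biUnion Bits).card ≤ 2 ^ (N - 1) - 1 := by
    refine Finset.card_biUnion_le.trans ?_
    simp only [card_Bits]
    rw [Nat.geomSum_eq le_rfl]
    simp
  have h1 : (S.card : ℝ) ≤ 2 ^ N / 2 := by
    have h2 : S.card ≤ 2 ^ (N - 1) := (hcard.trans hcard2).trans (Nat.sub_le _ _)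
    have h3 : (S.card : ℝ) ≤ 2 ^ (N - 1) := by exact_mod_cast h2
    obtain ⟨k, rfl⟩ := Nat.exists_eq_add_of_le' hN
    rw [Nat.add_sub_cancel] at h3
    rw [pow_succ]
    linarith
  have h2 : ∑ x ∈ Bits N, (if U.RKT x = true then (1 : ℝ) else 0) + S.card = 2 ^ N := by
    rw [hS, card_filter_eq_sum, ← Finset.sum_add_distrib]
    have h3 : ∀ x ∈ Bits N, (if U.RKT x = true then (1 : ℝ) else 0) +
        (if U.RKT x = false then (1 : ℝ) else 0) = 1 := by
      intro x _
      cases U.RKT x <;> simp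
    rw [Finset.sum_congr rfl h3, sum_Bits_const, mul_one]
  linarith

theorem RKT_false {U : Machine} {x : List Bool} {n : ℕ} (h : U.KT x ≤ (n : ℕ∞))
    (hn : n < x.length) : U.RKT x = false := by
  unfold Machine.RKT
  rw [decide_eq_false_iff_not, not_le]
  exact lt_of_le_of_lt h (by exact_mod_cast hn)

/-! ### the parameters -/

theorem eval_le_mul_pow (P : Polynomial ℕ) (m : ℕ) (hm : 1 ≤ m) :
    P.eval m ≤ P.eval 1 * m ^ P.natDegree := by
  rw [Polynomial.eval_eq_sum_range, Polynomial.eval_eq_sum_range, Finset.sum_mul]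
  refine Finset.sum_le_sum fun i hi => ?_
  rw [Finset.mem_range] at hi
  rw [one_pow, mul_one]
  exact Nat.mul_le_mul_left _ (Nat.pow_le_pow_right hm (by omega))

theorem exists_le_two_pow (P : Polynomial ℕ) : ∃ n₀ : ℕ, ∀ n ≥ n₀, P.eval n ≤ 2 ^ n := by
  have h := tendsto_pow_const_div_const_pow_of_one_lt P.natDegree (r := (2 : ℝ)) (by norm_num)
  have h2 : ∀ᶠ n : ℕ in Filter.atTop,
      (n : ℝ) ^ P.natDegree / 2 ^ n < 1 / ((P.eval 1 : ℕ) + 1 : ℝ) :=
    h.eventually_lt_const (by positivity)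
  obtain ⟨n₁, hn₁⟩ := Filter.eventually_atTop.1 h2
  refine ⟨max n₁ 1, fun n hn => ?_⟩
  have h3 := hn₁ n ((le_max_left _ _).trans hn)
  have h4 := eval_le_mul_pow P n ((le_max_right _ _).trans hn)
  rw [div_lt_div_iff₀ (by positivity) (by positivity), one_mul] at h3
  have h5 : ((P.eval 1 * n ^ P.natDegree : ℕ) : ℝ) ≤ ((2 ^ n : ℕ) : ℝ) := by
    push_cast
    have h6 : (0 : ℝ) ≤ (n : ℝ) ^ P.natDegree := by positivity
    nlinarith
  exact h4.trans (by exact_mod_cast h5)

theorem bits_length_le_of_lt {n k : ℕ} (h : n < 2 ^ k) : n.bits.length ≤ k := by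
  rw [Nat.size_eq_bits_len]
  exact Nat.size_le.2 h

theorem sz_le_of_lt {n s : ℕ} (h : n < s) : sz n ≤ 4 * s + 1 :=
  sz_le_of_lt_pow (h.trans Nat.lt_two_pow_self)

theorem beta_le {n b : ℕ} (h : n ≤ b) : beta (2 * n) b ≤ (4 * b ^ 2 + 1) * b + 1 := by
  unfold beta
  apply bits_length_le_of_lt
  have h1 : (2 * n).factorial / 2 ≤ 2 ^ (4 * b ^ 2 + 1) := by
    have h2 := psquare_bound (2 * n) (2 * b) (by omega)
    have h3 : 2 * b * (2 * b) + 1 = 4 * b ^ 2 + 1 := by ring
    rw [h3] at h2
    exact (Nat.div_le_self _ _).trans h2.le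
  calc ((2 * n).factorial / 2) ^ b ≤ (2 ^ (4 * b ^ 2 + 1)) ^ b := Nat.pow_le_pow_left h1 b
    _ = 2 ^ ((4 * b ^ 2 + 1) * b) := by rw [← pow_mul]
    _ < 2 ^ ((4 * b ^ 2 + 1) * b + 1) := Nat.pow_lt_pow_right (by norm_num) (Nat.lt_succ_self _)

/-- the parameters can be chosen such that the strings made from structures with automorphisms are
not KT-random -/
theorem exists_params {U : Machine} (hU : U.Universal) : ∃ (Q : Polynomial ℕ) (C : ℕ),
    ∀ b ≥ C, 0 < Q.eval b ∧ 256 * Q.eval b ^ 2 ≤ 2 ^ b ∧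
      ∀ (p : Arg) (u : ℕ) (π : ℕ → ℕ), IsAut (entA p) (2 * p.1.length) π → u < 2 * p.1.length →
        π u ≠ u → sz p.1 ≤ b → p.2.1 < p.1.length → p.2.2.1 < p.1.length →
        p.2.2.2.1 < p.1.length → p.2.2.2.2 < p.1.length → ∀ w : List Bool,
        w.length = tlen (2 * p.1.length) (p.1.length + 3) b (Q.eval b) →
        U.RKT (trial (entA p) (2 * p.1.length) (p.1.length + 3) b (Q.eval b) w) = false := by
  obtain ⟨P, hP⟩ := KT_trial hU
  set βp : Polynomial ℕ := (4 * Polynomial.X ^ 2 + 1) * Polynomial.X + 1 with hβp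
  set hp : Polynomial ℕ := (βp + 1) * (Polynomial.X * (2 * Polynomial.X *
    (2 * Polynomial.X * (Polynomial.X + 3)))) with hhp
  set S : Polynomial ℕ := 60 * Polynomial.X + 60 + 5 * hp + βp with hS
  set Q : Polynomial ℕ := P.comp S + 1 with hQ
  obtain ⟨C, hC⟩ := exists_le_two_pow (256 * Q ^ 2)
  refine ⟨Q, C, fun b hb => ?_⟩
  have hq0 : 0 < Q.eval b := by rw [hQ]; simp
  have hq2 : 256 * Q.eval b ^ 2 ≤ 2 ^ b := by
    have := hC b hb
    simpa using this
  refine ⟨hq0, hq2, ?_⟩
  intro p u π hπ hu hne hsz hi hj ha hb' w hw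
  set q := Q.eval b with hq
  have h1 := hP p u π hπ hu hne b q w hw
  refine RKT_false h1 ?_
  rw [trial_length _ _ _ _ _ _ hw]
  set n := p.1.length with hn
  have hnb : n ≤ b := by
    have := length_lt_sz p.1
    omega
  have hqb : q < 2 ^ b := by
    have h3 : q ≤ q ^ 2 := Nat.le_self_pow (by norm_num) q
    omega
  have hβ : beta (2 * n) b ≤ βp.eval b := by
    rw [hβp]
    simpa using beta_le hnb
  have hhl : hlen (2 * n) (n + 3) b ≤ hp.eval b := by
    rw [hhp]
    simp only [Polynomial.eval_mul, Polynomial.eval_add, Polynomial.eval_X,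
      Polynomial.eval_ofNat, Polynomial.eval_one]
    unfold hlen blen
    exact Nat.mul_le_mul (by omega) (Nat.mul_le_mul_left _ (Nat.mul_le_mul (by omega)
      (Nat.mul_le_mul (by omega) (by omega))))
  have hxl : (xlen (2 * n) (n + 3) b q + 1).bits.length ≤ b + hp.eval b + βp.eval b + 2 := by
    apply bits_length_le_of_lt
    have h3 : xlen (2 * n) (n + 3) b q + 1 ≤ 2 ^ b * (hp.eval b + βp.eval b + 2) := by
      unfold xlen
      have h4 : q * (beta (2 * n) b + 1) ≤ 2 ^ b * (βp.eval b + 1) :=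
        Nat.mul_le_mul hqb.le (by omega)
      have h5 : hlen (2 * n) (n + 3) b + 1 ≤ 2 ^ b * (hp.eval b + 1) := by
        have : 1 * (hp.eval b + 1) ≤ 2 ^ b * (hp.eval b + 1) :=
          Nat.mul_le_mul_right _ Nat.one_le_two_pow
        omega
      have h6 : 2 ^ b * (hp.eval b + βp.eval b + 2) =
          2 ^ b * (hp.eval b + 1) + 2 ^ b * (βp.eval b + 1) := by ring
      omega
    refine lt_of_le_of_lt h3 ?_
    rw [show b + hp.eval b + βp.eval b + 2 = b + (hp.eval b + βp.eval b + 2) by ring, pow_add]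
    exact Nat.mul_lt_mul_of_pos_left Nat.lt_two_pow_self (by positivity)
  have hθ : sz ((p, (u, π u), List.replicate b true,
      w.take (hlen (2 * n) (n + 3) b), q) : Params) ≤ 59 * b + 40 + 4 * hp.eval b := by
    obtain ⟨rows, i, j, a, b₁⟩ := p
    simp only [sz_pair]
    simp only at hsz hi hj ha hb' hn
    have e1 := sz_le_of_lt (hi.trans_le hnb)
    have e2 := sz_le_of_lt (hj.trans_le hnb)
    have e3 := sz_le_of_lt (ha.trans_le hnb)
    have e4 := sz_le_of_lt (hb'.trans_le hnb)
    have e5 : sz u ≤ 4 * (2 * b) + 1 := sz_le_of_lt (by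
      have : u < 2 * n := hu
      omega)
    have e6 : sz (π u) ≤ 4 * (2 * b) + 1 := sz_le_of_lt (by
      have : π u < 2 * n := hπ.1 u hu
      omega)
    have e7 := sz_listBool_le (List.replicate b true)
    rw [List.length_replicate] at e7
    have e8 := sz_listBool_le (w.take (hlen (2 * n) (n + 3) b))
    rw [List.length_take] at e8
    have e9 : min (hlen (2 * n) (n + 3) b) w.length ≤ hlen (2 * n) (n + 3) b := min_le_left _ _
    have e10 : sz q ≤ 4 * b + 1 := sz_le_of_lt_pow hqb
    omega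
  have h3 : P.eval (sz ((p, (u, π u), List.replicate b true,
            w.take (hlen (2 * n) (n + 3) b), q) : Params) +
            (xlen (2 * n) (n + 3) b q + 1).bits.length) < q := by
    have hqe : q = P.eval (S.eval b) + 1 := by
      rw [hq, hQ]
      simp only [Polynomial.eval_add, Polynomial.eval_comp, Polynomial.eval_one]
    have hSe : S.eval b = 60 * b + 60 + 5 * hp.eval b + βp.eval b := by
      rw [hS]
      simp only [Polynomial.eval_add, Polynomial.eval_mul, Polynomial.eval_X,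
        Polynomial.eval_ofNat]
    refine lt_of_lt_of_eq ?_ hqe.symm
    refine Nat.lt_succ_of_le (eval_mono P ?_)
    rw [hSe]
    omega
  have h4 : xlen (2 * n) (n + 3) b q = hlen (2 * n) (n + 3) b + (q * beta (2 * n) b + q) := by
    unfold xlen
    ring
  refine lt_of_lt_of_eq ?_ h4.symm
  omega

end Pool.Agent.TH677.GA
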