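import Pool.Agent.H620R2.GaugeX.Defs

/-!
# Machines with random access to a description, KT complexity, graph automorphism
-/

set_option autoImplicit false

namespace Pool.Agent.TH677.GA

open Pool.Agent.NPC (bits)
open Pool.Agent.H620R2.Gauge (Oracle)

/-- The number with the given binary digits, the least significant digit first. -/
def num : List Bool → ℕ
  | [] => 0
  | b :: l => (if b then 1 else 0) + 2 * num l

/-- The instructions of a machine with binary stacks and random access to a description string:
put the bit `b` on top of stack `k`; remove the top of stack `k`; go to the instruction `l₀`, `l₁`
or `l₂` if stack `k` is empty, has the top `false` or has the top `true`; replace the content of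
stack `k`, read as a binary number `i` (least significant digit on top), by the bit number `i` of
the description (by the empty stack if the description has no such bit). Except for branching, the
next instruction in the list comes next. -/
inductive Instr : Type
  | push (k : ℕ) (b : Bool)
  | pop (k : ℕ)
  | branch (k l₀ l₁ l₂ : ℕ)
  | ask (k : ℕ)

/-- A configuration: the number of the next instruction and the contents of the stacks. -/
abbrev Conf : Type := ℕ × (ℕ → List Bool)

/-- One step of the machine with program `P` and description `d`; there is none if there is no
next instruction. -/
def step (P : List Instr) (d : List Bool) (c : Conf) : Option Conf :=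
  match P[c.1]? with
  | none => none
  | some (Instr.push k b) => some (c.1 + 1, Function.update c.2 k (b :: c.2 k))
  | some (Instr.pop k) => some (c.1 + 1, Function.update c.2 k (c.2 k).tail)
  | some (Instr.branch k l₀ l₁ l₂) =>
    some ((match c.2 k with | [] => l₀ | false :: _ => l₁ | true :: _ => l₂), c.2)
  | some (Instr.ask k) => some (c.1 + 1, Function.update c.2 k (d[num (c.2 k)]?).toList)

/-- The configuration after `t` steps, if there is one. -/
def steps (P : List Instr) (d : List Bool) : ℕ → Conf → Option Conf
  | 0, c => some c
  | t + 1, c => (step P d c).bind (steps P d t)

/-- The initial configuration: the input `x` is on stack `0`, the other stacks are empty. -/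
def start (x : List Bool) : Conf := (0, Function.update (fun _ => []) 0 x)

/-- The machine with program `P` and description `d` halts on input `x` after `t` steps with the
verdict `v`; it accepts (`v = true`) if and only if the content of stack `0` is then `[true]`. -/
def Halts (P : List Instr) (d x : List Bool) (t : ℕ) (v : Bool) : Prop :=
  ∃ c : Conf, steps P d t (start x) = some c ∧ step P d c = none ∧ (v = true ↔ c.2 0 = [true])

/-- The input `(i, b)`, where `none` stands for the symbol `*`, as a bit string. -/
def inCode (i : ℕ) : Option Bool → List Bool
  | none => false :: i.bits
  | some b => true :: b :: i.bits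

/-- The behaviour of a machine that gets a description and an input `(i, b)`: the verdict (`true`
for accept, `false` for reject) and the number of steps, or `none` if it does not halt. A machine
needs at least one step. -/
structure Machine : Type where
  /-- verdict and number of steps for a description and an input -/
  run : List Bool → ℕ → Option Bool → Option (Bool × ℕ)
  /-- there is at least one step -/
  pos : ∀ d i b v t, run d i b = some (v, t) → 1 ≤ t

/-- `U` is universal: for every program `P` there is a constant `c` such that for every
description `d` there is a description `d'` that is longer by at most `c`, with which `U` gives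
the same verdicts as `P` with `d`, in at most `c * (t + 1) ^ c` steps where `P` needs `t`. -/
def Machine.Universal (U : Machine) : Prop :=
  ∀ P : List Instr, ∃ c : ℕ, ∀ d : List Bool, ∃ d' : List Bool, d'.length ≤ d.length + c ∧
    ∀ (i : ℕ) (b : Option Bool) (v : Bool) (t : ℕ), Halts P d (inCode i b) t v →
      ∃ t' ≤ c * (t + 1) ^ c, U.run d' i b = some (v, t')

/-- `U` with description `d` accepts the input `(i, b)` within `t` steps. -/
def Machine.Accepts (U : Machine) (d : List Bool) (i : ℕ) (b : Option Bool) (t : ℕ) : Prop :=
  ∃ s ≤ t, U.run d i b = some (true, s)

/-- The description `d` and the time `t` describe the string `x = x_1 ... x_n`: for every `i` with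
`1 ≤ i ≤ n + 1` and every `b`, the machine accepts `(i, b)` within `t` steps exactly when
`x_i = b`, where `x_{n+1}` is the symbol `*`. -/
def Machine.Describes (U : Machine) (d : List Bool) (t : ℕ) (x : List Bool) : Prop :=
  ∀ (i : ℕ) (b : Option Bool), 1 ≤ i → i ≤ x.length + 1 → (U.Accepts d i b t ↔ x[i - 1]? = b)

/-- The KT complexity of `x`: the least `|d| + t` such that `d` and `t` describe `x`. -/
noncomputable def Machine.KT (U : Machine) (x : List Bool) : ℕ∞ :=
  ⨅ (d : List Bool) (t : ℕ) (_ : U.Describes d t x), ((d.length + t : ℕ) : ℕ∞)

open Classical in
/-- The oracle `R_KT`: the strings `x` with `KT(x) ≥ |x|`. -/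
noncomputable def Machine.RKT (U : Machine) : Oracle := fun x => decide ((x.length : ℕ∞) ≤ U.KT x)

open Classical in
/-- The adjacency matrix of a graph. -/
noncomputable def adjRows {n : ℕ} (G : SimpleGraph (Fin n)) : List (List Bool) :=
  List.ofFn fun i => List.ofFn fun j => decide (G.Adj i j)

/-- The problem Graph Automorphism (GA): the codes of the adjacency matrices of the finite simple graphs with an
automorphism other than the identity. -/
def GraphAut : Set (List Bool) :=
  {x | ∃ (n : ℕ) (G : SimpleGraph (Fin n)), x = bits (adjRows G) ∧
    ∃ φ : G ≃g G, φ ≠ SimpleGraph.Iso.refl}

end Pool.Agent.TH677.GA
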