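import Pool.Agent.TH677.GA.Model

/-!
# Query algorithms give machines
-/

set_option autoImplicit false
set_option linter.unusedSimpArgs false

namespace Pool.Agent.TH677.GA

open Function (update)
open Pool.Agent.NPC Pool.Agent.H622R2

theorem num_eq_valB (l : List Bool) : num l = valB l := by
  induction l with
  | nil => rfl
  | cons b l ih => simp [num, ih]

/-- execution within a time bound -/
def Execs (d : List Bool) (p : Prog) (s s' : ℕ → List Bool) (n : ℕ) : Prop :=
  ∃ t ≤ n, Exec d p s s' t

section

variable {d : List Bool}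

theorem Execs.conv {p : Prog} {s s' s₁ s₁' : ℕ → List Bool} {m n : ℕ}
    (h : Execs d p s s' m) (e₁ : s = s₁) (e₂ : s' = s₁') (hmn : m ≤ n) :
    Execs d p s₁ s₁' n := by
  subst e₁ e₂
  obtain ⟨t, ht, h⟩ := h
  exact ⟨t, ht.trans hmn, h⟩

theorem Execs.seq {p q : Prog} {s s' s'' : ℕ → List Bool} {m n : ℕ} (h₁ : Execs d p s s' m)
    (h₂ : Execs d q s' s'' n) : Execs d (Prog.seq p q) s s'' (m + n) := by
  obtain ⟨t₁, ht₁, h₁⟩ := h₁
  obtain ⟨t₂, ht₂, h₂⟩ := h₂
  exact ⟨t₁ + t₂, by omega, Exec.seq h₁ h₂⟩

theorem Execs.skip (s : ℕ → List Bool) : Execs d Prog.skip s s 1 := ⟨1, le_rfl, Exec.skip s⟩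

theorem Execs.push (s : ℕ → List Bool) (k : ℕ) (b : Bool) :
    Execs d (Prog.push k b) s (update s k (b :: s k)) 1 := ⟨1, le_rfl, Exec.push s k b⟩

theorem Execs.pop (s : ℕ → List Bool) (k : ℕ) :
    Execs d (Prog.pop k) s (update s k (s k).tail) 1 := ⟨1, le_rfl, Exec.pop s k⟩

theorem Execs.ask (s : ℕ → List Bool) (k : ℕ) :
    Execs d (Prog.ask k) s (update s k (d[num (s k)]?).toList) 1 := ⟨1, le_rfl, Exec.ask s k⟩

theorem Execs.casesNil {k : ℕ} {p₀ pf pt : Prog} {s s' : ℕ → List Bool} {n : ℕ}
    (hk : s k = []) (h : Execs d p₀ s s' n) : Execs d (Prog.cases k p₀ pf pt) s s' (n + 1) := by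
  obtain ⟨t, ht, h⟩ := h
  exact ⟨t + 1, by omega, Exec.casesNil hk h⟩

theorem Execs.casesFalse {k : ℕ} {p₀ pf pt : Prog} {s s' : ℕ → List Bool} {n : ℕ}
    {l : List Bool} (hk : s k = false :: l) (h : Execs d pf s s' n) :
    Execs d (Prog.cases k p₀ pf pt) s s' (n + 1) := by
  obtain ⟨t, ht, h⟩ := h
  exact ⟨t + 1, by omega, Exec.casesFalse hk h⟩

theorem Execs.casesTrue {k : ℕ} {p₀ pf pt : Prog} {s s' : ℕ → List Bool} {n : ℕ}
    {l : List Bool} (hk : s k = true :: l) (h : Execs d pt s s' n) :
    Execs d (Prog.cases k p₀ pf pt) s s' (n + 1) := by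
  obtain ⟨t, ht, h⟩ := h
  exact ⟨t + 1, by omega, Exec.casesTrue hk h⟩

theorem Execs.loopNil {k : ℕ} {p : Prog} {s : ℕ → List Bool} (hk : s k = []) :
    Execs d (Prog.loop k p) s s 1 := ⟨1, le_rfl, Exec.loopNil hk⟩

theorem Execs.loopCons {k : ℕ} {p : Prog} {s s' s'' : ℕ → List Bool} {m n : ℕ} (hk : s k ≠ [])
    (h₁ : Execs d p s s' m) (h₂ : Execs d (Prog.loop k p) s' s'' n) :
    Execs d (Prog.loop k p) s s'' (m + n + 1) := by
  obtain ⟨t₁, ht₁, h₁⟩ := h₁
  obtain ⟨t₂, ht₂, h₂⟩ := h₂
  exact ⟨t₁ + t₂ + 1, by omega, Exec.loopCons hk h₁ h₂⟩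

theorem Execs.ofRuns {c : Cmd ℕ} {s s' : ℕ → List Bool} {n : ℕ} (h : Runs c s s' n) :
    Execs d (ofCmd c) s s' n := by
  obtain ⟨t, ht, h⟩ := h
  exact ⟨t, ht, Exec.ofRun d h⟩

end

/-- the states of the driver -/
def ds (s₀ s₁ s₂ s₃ s₄ : List Bool) : ℕ → List Bool := fun i =>
  match i with
  | 0 => s₀
  | 1 => s₁
  | 2 => s₂
  | 3 => s₃
  | 4 => s₄
  | _ => []

section

variable (a b c e f x : List Bool)

@[simp] theorem ds_zero : ds a b c e f 0 = a := rfl
@[simp] theorem ds_one : ds a b c e f 1 = b := rfl
@[simp] theorem ds_two : ds a b c e f 2 = c := rfl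
@[simp] theorem ds_three : ds a b c e f 3 = e := rfl
@[simp] theorem ds_four : ds a b c e f 4 = f := rfl

theorem ds_ext {s s' : ℕ → List Bool} (h0 : s 0 = s' 0) (h1 : s 1 = s' 1) (h2 : s 2 = s' 2)
    (h3 : s 3 = s' 3) (h4 : s 4 = s' 4) (h5 : ∀ n, s (n + 5) = s' (n + 5)) : s = s' := by
  funext i
  match i with
  | 0 => exact h0
  | 1 => exact h1
  | 2 => exact h2
  | 3 => exact h3
  | 4 => exact h4
  | n + 5 => exact h5 n

@[simp] theorem ds_far (n : ℕ) : ds a b c e f (n + 5) = [] := rfl

@[simp] theorem update_ds_zero : update (ds a b c e f) 0 x = ds x b c e f :=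
  ds_ext (by simp) (by simp [Function.update_apply]) (by simp [Function.update_apply]) (by simp [Function.update_apply])
    (by simp [Function.update_apply]) (fun n => by simp [Function.update_apply])

@[simp] theorem update_ds_one : update (ds a b c e f) 1 x = ds a x c e f :=
  ds_ext (by simp [Function.update_apply]) (by simp) (by simp [Function.update_apply]) (by simp [Function.update_apply])
    (by simp [Function.update_apply]) (fun n => by simp [Function.update_apply])

@[simp] theorem update_ds_two : update (ds a b c e f) 2 x = ds a b x e f :=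
  ds_ext (by simp [Function.update_apply]) (by simp [Function.update_apply]) (by simp) (by simp [Function.update_apply])
    (by simp [Function.update_apply]) (fun n => by simp [Function.update_apply])

@[simp] theorem update_ds_three : update (ds a b c e f) 3 x = ds a b c x f :=
  ds_ext (by simp [Function.update_apply]) (by simp [Function.update_apply]) (by simp [Function.update_apply]) (by simp)
    (by simp [Function.update_apply]) (fun n => by simp [Function.update_apply])

@[simp] theorem update_ds_four : update (ds a b c e f) 4 x = ds a b c e x :=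
  ds_ext (by simp [Function.update_apply]) (by simp [Function.update_apply]) (by simp [Function.update_apply])
    (by simp [Function.update_apply]) (by simp) (fun n => by simp [Function.update_apply])

end

/-- the stacks of a subprogram -/
def emb (i : ℕ) : ℕ := if i = 0 then 0 else i + 4

theorem emb_inj : Function.Injective emb := by
  intro a b h
  unfold emb at h
  split_ifs at h <;> omega

theorem sub_runs {c : Cmd ℕ} {x y : List Bool} {n : ℕ} (h : Runs c (inp x) (inp y) n)
    (s₁ s₂ s₃ s₄ : List Bool) :
    Runs (c.map emb) (ds x s₁ s₂ s₃ s₄) (ds y s₁ s₂ s₃ s₄) n := by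
  obtain ⟨t, ht, h⟩ := h
  obtain ⟨S', h1, h2, h3⟩ := h.map emb_inj (ds x s₁ s₂ s₃ s₄) (by
    funext i
    unfold emb inp
    by_cases hi : i = 0
    · subst hi; simp
    · rw [if_neg hi, Function.update_of_ne hi]
      obtain ⟨j, rfl⟩ := Nat.exists_eq_succ_of_ne_zero hi
      rfl)
  refine ⟨t, ht, ?_⟩
  have h4 : S' = ds y s₁ s₂ s₃ s₄ := by
    have h5 : ∀ i, 1 ≤ i → i ≤ 4 → i ∉ Set.range emb := by
      rintro i hi hi' ⟨j, hj⟩
      unfold emb at hj
      split_ifs at hj <;> omega
    refine ds_ext ?_ ?_ ?_ ?_ ?_ ?_
    · have := congrFun h2 0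
      simpa [emb, inp] using this
    · rw [h3 1 (h5 1 (by norm_num) (by norm_num))]; rfl
    · rw [h3 2 (h5 2 (by norm_num) (by norm_num))]; rfl
    · rw [h3 3 (h5 3 (by norm_num) (by norm_num))]; rfl
    · rw [h3 4 (h5 4 (by norm_num) (by norm_num))]; rfl
    · intro n
      have := congrFun h2 (n + 1)
      simp only [emb, inp, Nat.succ_ne_zero, if_false] at this
      rw [Function.update_of_ne (Nat.succ_ne_zero n)] at this
      exact this
  rw [← h4]
  exact h1

/-- move the first component of a pair to stack 2 -/
def parseP : Prog := Prog.seq (Prog.push 4 true) (Prog.loop 4 (Prog.cases 0 (Prog.pop 4)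
  (Prog.seq (Prog.pop 0) (Prog.pop 4)) (Prog.seq (Prog.pop 0) (Prog.cases 0 Prog.skip
    (Prog.seq (Prog.pop 0) (Prog.push 2 false)) (Prog.seq (Prog.pop 0) (Prog.push 2 true))))))

theorem parseP_execs (d g s₁ s₃ : List Bool) : ∀ (q acc : List Bool),
    Execs d (Prog.loop 4 (Prog.cases 0 (Prog.pop 4)
      (Prog.seq (Prog.pop 0) (Prog.pop 4)) (Prog.seq (Prog.pop 0) (Prog.cases 0 Prog.skip
      (Prog.seq (Prog.pop 0) (Prog.push 2 false)) (Prog.seq (Prog.pop 0) (Prog.push 2 true))))))
      (ds (pairBits q g) s₁ acc s₃ [true]) (ds g s₁ (q.reverse ++ acc) s₃ [])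
      (6 * q.length + 5) := by
  intro q
  induction q with
  | nil =>
    intro acc
    refine (Execs.loopCons (by simp) (Execs.casesFalse (l := g) (by simp [pairBits])
      ((Execs.pop _ 0).seq (Execs.pop _ 4))) (Execs.loopNil (by simp))).conv rfl ?_ (by simp)
    simp [pairBits]
  | cons b q ih =>
    intro acc
    have ih' := ih (b :: acc)
    cases b with
    | false =>
      refine (Execs.loopCons (by simp) (Execs.casesTrue (l := false :: pairBits q g)
        (by simp [pairBits]) ((Execs.pop _ 0).seq (Execs.casesFalse (l := pairBits q g)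
        (by simp [pairBits]) ((Execs.pop _ 0).seq (Execs.push _ 2 false))))) (Execs.conv ih'
        (by simp [pairBits]) rfl le_rfl)).conv rfl ?_ ?_
      · simp
      · simp; omega
    | true =>
      refine (Execs.loopCons (by simp) (Execs.casesTrue (l := true :: pairBits q g)
        (by simp [pairBits]) ((Execs.pop _ 0).seq (Execs.casesTrue (l := pairBits q g)
        (by simp [pairBits]) ((Execs.pop _ 0).seq (Execs.push _ 2 true))))) (Execs.conv ih'
        (by simp [pairBits]) rfl le_rfl)).conv rfl ?_ ?_
      · simp
      · simp; omega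

/-- ask the question on stack 2 (reversed) and put the answer on stack 0 -/
def askP : Prog := Prog.seq (ofCmd (mv 2 1)) (Prog.seq (Prog.ask 1) (Prog.cases 1
  (Prog.seq (Prog.push 0 false) (Prog.push 0 true))
  (Prog.seq (Prog.pop 1) (Prog.seq (Prog.push 0 false) (Prog.push 0 true)))
  (Prog.seq (Prog.pop 1) (Prog.seq (Prog.push 0 true) (Prog.push 0 true)))))

theorem askP_execs (d g s₃ q : List Bool) :
    Execs d askP (ds g [] q.reverse s₃ []) (ds (true :: d.getD (valB q) false :: g) [] [] s₃ [])
      (4 * q.length + 6) := by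
  have h1 : Runs (mv 2 1) (ds g [] q.reverse s₃ []) (ds g q [] s₃ []) (4 * q.length + 1) :=
    (mv_runs (by decide) q.reverse _ (ds g q [] s₃ []) (by simp) (by simp)).mono (by simp)
  have h2 : Execs d (Prog.ask 1) (ds g q [] s₃ []) (ds g (d[valB q]?).toList [] s₃ []) 1 := by
    refine (Execs.ask _ 1).conv rfl ?_ le_rfl
    rw [ds_one, num_eq_valB, update_ds_one]
  refine ((Execs.ofRuns h1).seq (h2.seq (n := 4) ?_)).conv rfl rfl (by omega)
  rw [List.getD_eq_getElem?_getD]
  cases hd : d[valB q]? with
  | none =>
    refine (Execs.casesNil (by simp) ((Execs.push _ 0 false).seq (Execs.push _ 0 true))).conv rfl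
      ?_ (by norm_num)
    simp
  | some r =>
    cases r with
    | false =>
      refine (Execs.casesFalse (l := []) (by simp) ((Execs.pop _ 1).seq
        ((Execs.push _ 0 false).seq (Execs.push _ 0 true)))).conv rfl ?_ (by norm_num)
      simp
    | true =>
      refine (Execs.casesTrue (l := []) (by simp) ((Execs.pop _ 1).seq
        ((Execs.push _ 0 true).seq (Execs.push _ 0 true)))).conv rfl ?_ (by norm_num)
      simp

/-- one round of the driver -/
def bodyP (c : Cmd ℕ) : Prog := Prog.seq (ofCmd (c.map emb)) (Prog.cases 0 (Prog.pop 3)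
  (Prog.seq (Prog.pop 0) (Prog.seq parseP askP)) (Prog.seq (Prog.pop 0) (Prog.pop 3)))

/-- the driver -/
def driveP (c : Cmd ℕ) : Prog :=
  Prog.seq (Prog.push 0 false) (Prog.seq (Prog.push 3 true) (Prog.loop 3 (bodyP c)))

theorem body_ask {c : Cmd ℕ} {g q : List Bool} {n : ℕ} (d : List Bool)
    (h : Runs c (inp g) (inp (false :: pairBits q g)) n) :
    Execs d (bodyP c) (ds g [] [] [true] [])
      (ds (true :: d.getD (valB q) false :: g) [] [] [true] []) (n + 10 * q.length + 14) := by
  have h1 := Execs.ofRuns (d := d) (sub_runs h [] [] [true] [])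
  have h2 : Execs d parseP (ds (pairBits q g) [] [] [true] []) (ds g [] q.reverse [true] [])
      (6 * q.length + 6) := by
    have h3 := parseP_execs d g [] [true] q []
    refine ((Execs.push _ 4 true).seq (Execs.conv h3 (by simp) rfl le_rfl)).conv rfl
      (by simp) (by omega)
  have h3 := askP_execs d g [true] q
  refine (h1.seq (Execs.casesFalse (l := pairBits q g) (by simp) ((Execs.pop _ 0).seq
    (Execs.conv (h2.seq h3) (by simp) rfl le_rfl)))).conv rfl rfl (by omega)

theorem body_stop {c : Cmd ℕ} {g : List Bool} {n : ℕ} (d : List Bool) (v : Bool)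
    (h : Runs c (inp g) (inp [true, v]) n) :
    Execs d (bodyP c) (ds g [] [] [true] []) (ds [v] [] [] [] []) (n + 3) := by
  have h1 := Execs.ofRuns (d := d) (sub_runs h [] [] [true] [])
  refine (h1.seq (Execs.casesTrue (l := [v]) (by simp) ((Execs.pop _ 0).seq
    (Execs.pop _ 3)))).conv rfl (by simp) (by omega)

/-- the answers after `n` questions, the last one first -/
def answers (idx : List Bool × List Bool → ℕ) (d x : List Bool) : ℕ → List Bool
  | 0 => []
  | n + 1 => d.getD (idx (answers idx d x n, x)) false :: answers idx d x n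

theorem answers_length (idx : List Bool × List Bool → ℕ) (d x : List Bool) (n : ℕ) :
    (answers idx d x n).length = n := by
  induction n with
  | zero => rfl
  | succ n ih => simp [answers, ih]

/-- the function computed in each round -/
def roundF (stop : List Bool × List Bool → Option Bool) (idx : List Bool × List Bool → ℕ)
    (z : List Bool) : List Bool :=
  match stop (unpair z) with
  | some v => [true, v]
  | none => false :: pairBits (idx (unpair z)).bits z

theorem poly_roundF {stop : List Bool × List Bool → Option Bool}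
    {idx : List Bool × List Bool → ℕ} (hs : Poly stop) (hi : Poly idx) :
    Poly (roundF stop idx) := by
  refine (Poly.optCases (o := fun z => stop (unpair z))
    (g := fun z => false :: pairBits (idx (unpair z)).bits z) (h := fun _ v => [true, v])
    (hs.comp poly_unpair) (Poly.cons (NPC.Poly.const false)
      (poly_pairBits (Poly.natBits (hi.comp poly_unpair)) Poly.id))
    (Poly.cons (NPC.Poly.const true) (Poly.cons (Poly.snd Poly.id) (NPC.Poly.const [])))).congr
    fun z => ?_
  unfold roundF
  cases stop (unpair z) <;> rfl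

theorem pairBits_length (w x : List Bool) :
    (pairBits w x).length = 2 * w.length + x.length + 1 := by
  unfold pairBits
  rw [List.length_append, List.length_cons]
  have : (w.flatMap (fun b => [true, b])).length = 2 * w.length := by
    induction w with
    | nil => rfl
    | cons b w ih => simp [List.flatMap_cons] at ih ⊢; omega
  omega

/-- A query algorithm, given by polynomial-time functions that tell whether to stop and what to
ask, as functions of the answers so far and of the input, gives a machine. -/
theorem exists_machine {stop : List Bool × List Bool → Option Bool}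
    {idx : List Bool × List Bool → ℕ} (hs : Poly stop) (hi : Poly idx) :
    ∃ (P : List Instr) (p : Polynomial ℕ), ∀ (d x : List Bool) (r : ℕ) (v : Bool),
      (∀ n < r, stop (answers idx d x n, x) = none) →
      stop (answers idx d x r, x) = some v →
      ∃ t ≤ p.eval (x.length + r), Halts P d x t v := by
  have hraw : PC (fun x : List Bool => x) (fun x : List Bool => x) (roundF stop idx) :=
    PC.comp (g := fun x => x) (f := roundF stop idx) rawOut
      (PC.comp (g := roundF stop idx) (f := fun x => x) (poly_roundF hs hi) PC.rawIn)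
  obtain ⟨c, p, hc⟩ := hraw
  replace hc : ∀ z : List Bool, Runs c (inp z) (inp (roundF stop idx z)) (p.eval z.length) := hc
  -- a bound for the time of a round for states of length at most `z`
  set b : Polynomial ℕ := 11 * p + 10 * Polynomial.X + 14 with hb
  refine ⟨comp (driveP c) 0, 3 * ((Polynomial.X + 1) * (b.comp (2 * Polynomial.X + 1) + 1) + 3),
    fun d x r v hn hv => ?_⟩
  have key : ∀ j k, k + j = r → Execs d (Prog.loop 3 (bodyP c))
      (ds (pairBits (answers idx d x k) x) [] [] [true] []) (ds [v] [] [] [] [])
      ((j + 1) * (b.eval (2 * r + x.length + 1) + 1) + 1) := by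
    intro j
    induction j with
    | zero =>
      intro k hk
      rw [Nat.add_zero] at hk
      subst hk
      have h1 := hc (pairBits (answers idx d x k) x)
      have h2 : roundF stop idx (pairBits (answers idx d x k) x) = [true, v] := by
        unfold roundF
        rw [unpair_pairBits, hv]
      rw [h2] at h1
      refine (Execs.loopCons (by simp) (body_stop d v h1) (Execs.loopNil (by simp))).conv rfl
        rfl ?_
      rw [pairBits_length, answers_length, hb]
      simp only [Polynomial.eval_add, Polynomial.eval_mul, Polynomial.eval_X,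
        Polynomial.eval_ofNat]
      omega
    | succ j ih =>
      intro k hk
      have h1 := hc (pairBits (answers idx d x k) x)
      have h2 : roundF stop idx (pairBits (answers idx d x k) x) =
          false :: pairBits (idx (answers idx d x k, x)).bits
            (pairBits (answers idx d x k) x) := by
        unfold roundF
        rw [unpair_pairBits, hn k (by omega)]
      rw [h2] at h1
      have h3 := body_ask d h1
      rw [valB_bits] at h3
      have h4 : true :: d.getD (idx (answers idx d x k, x)) false ::
          pairBits (answers idx d x k) x = pairBits (answers idx d x (k + 1)) x := by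
        simp [answers, pairBits]
      rw [h4] at h3
      refine (Execs.loopCons (by simp) h3 (ih (k + 1) (by omega))).conv rfl rfl ?_
      -- the length of the question
      have h5 : (idx (answers idx d x k, x)).bits.length ≤
          p.eval (pairBits (answers idx d x k) x).length +
            (pairBits (answers idx d x k) x).length := by
        obtain ⟨t, ht, hr⟩ := h1
        have h6 := hr.length_le 0
        simp only [inp, Function.update_self, List.length_cons, pairBits_length] at h6
        rw [pairBits_length] at ht ⊢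
        omega
      have h7 : (pairBits (answers idx d x k) x).length ≤ 2 * r + x.length + 1 := by
        rw [pairBits_length, answers_length]
        omega
      have h8 := eval_mono p h7
      have h9 : b.eval (2 * r + x.length + 1) = 11 * p.eval (2 * r + x.length + 1) +
          10 * (2 * r + x.length + 1) + 14 := by
        rw [hb]
        simp only [Polynomial.eval_add, Polynomial.eval_mul, Polynomial.eval_X,
          Polynomial.eval_ofNat]
      have h10 : (j + 1 + 1) * (b.eval (2 * r + x.length + 1) + 1) + 1 =
          (j + 1) * (b.eval (2 * r + x.length + 1) + 1) + 1 +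
            (b.eval (2 * r + x.length + 1) + 1) := by ring
      rw [h10]
      omega
  have h0 := key r 0 (Nat.zero_add r)
  have e0 : update (fun _ => ([] : List Bool)) 0 x = ds x [] [] [] [] :=
    ds_ext (by simp) (by simp [Function.update_apply]) (by simp [Function.update_apply]) (by simp [Function.update_apply])
      (by simp [Function.update_apply]) (fun n => by simp [Function.update_apply])
  have h1 : Execs d (driveP c) (ds x [] [] [] []) (ds [v] [] [] [] [])
      ((r + 1) * (b.eval (2 * r + x.length + 1) + 1) + 3) := by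
    refine ((Execs.push _ 0 false).seq ((Execs.push _ 3 true).seq (Execs.conv h0 ?_ rfl
      le_rfl))).conv rfl rfl (by omega)
    simp [answers, pairBits]
  obtain ⟨t, ht, h2⟩ := h1
  rw [← e0] at h2
  obtain ⟨t', ht', h3⟩ := halts_of_exec (v := v) h2 (by simp)
  refine ⟨t', ht'.trans ?_, h3⟩
  have h4 : b.eval (2 * r + x.length + 1) ≤ b.eval (2 * (x.length + r) + 1) :=
    eval_mono b (by omega)
  simp only [Polynomial.eval_add, Polynomial.eval_mul, Polynomial.eval_X, Polynomial.eval_ofNat,
    Polynomial.eval_one, Polynomial.eval_comp]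
  refine Nat.mul_le_mul_left 3 (ht.trans ?_)
  refine Nat.add_le_add_right ?_ 3
  exact Nat.mul_le_mul (by omega) (by omega)

end Pool.Agent.TH677.GA
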