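import Pool.Agent.TH677.GA.Main

/-!
# Graph Automorphism is in `ZPP` relative to the KT-random strings
-/

set_option autoImplicit false

namespace Pool.Agent.TH677.GA

open Pool.Agent.NPC Pool.Agent.H622R2
open Pool.Agent.H620R2.Gauge (Oracle IsFP IsZPP)

theorem rows_length_le (x : List Bool) : (rowsOf x).length ≤ x.length := by
  unfold rowsOf
  cases hu : unbits (List (List Bool)) x with
  | none => simp
  | some r =>
    have h1 := bits_of_unbits hu
    have h2 := length_lt_sz r
    rw [← bits_length, h1] at h2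
    exact h2.le

theorem sz_rows {x : List Bool} (h : unbits (List (List Bool)) x ≠ none) :
    sz (rowsOf x) = x.length := by
  unfold rowsOf
  cases hu : unbits (List (List Bool)) x with
  | none => exact absurd hu h
  | some r =>
    have h1 := bits_of_unbits hu
    simp only
    rw [← bits_length, h1]

theorem rnd_le {n b : ℕ} (h : n ≤ b) : rnd (2 * n) b ≤ (4 * b ^ 2 + 1) * b + 1 := by
  unfold rnd
  apply bits_length_le_of_lt
  have h1 : (2 * n).factorial ≤ 2 ^ (4 * b ^ 2 + 1) := by
    have h2 := psquare_bound (2 * n) (2 * b) (by omega)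
    have h3 : 2 * b * (2 * b) + 1 = 4 * b ^ 2 + 1 := by ring
    rw [h3] at h2
    exact h2.le
  calc ((2 * n).factorial) ^ b ≤ (2 ^ (4 * b ^ 2 + 1)) ^ b := Nat.pow_le_pow_left h1 b
    _ = 2 ^ ((4 * b ^ 2 + 1) * b) := by rw [← pow_mul]
    _ < 2 ^ ((4 * b ^ 2 + 1) * b + 1) := Nat.pow_lt_pow_right (by norm_num) (Nat.lt_succ_self _)

/-- the bound for the number of random bits -/
noncomputable def rbits (Q : Polynomial ℕ) (C : ℕ) : Polynomial ℕ :=
  20 * (Polynomial.X + 1) * (((((4 * Polynomial.X ^ 2 + 1) * Polynomial.X + 1) + 1) *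
    (Polynomial.X * (2 * Polynomial.X * (2 * Polynomial.X * (Polynomial.X + 3)))) +
    Q * ((4 * Polynomial.X ^ 2 + 1) * Polynomial.X + 1)).comp (Polynomial.X + (C : Polynomial ℕ)))

theorem le_rbits (Q : Polynomial ℕ) (C : ℕ) (x : List Bool) :
    trials x * rOfX Q C x ≤ (rbits Q C).eval x.length := by
  unfold rbits trials rOfX
  simp only [Polynomial.eval_mul, Polynomial.eval_add, Polynomial.eval_comp, Polynomial.eval_X,
    Polynomial.eval_one, Polynomial.eval_ofNat, Polynomial.eval_natCast, Polynomial.eval_pow,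
    Nat.cast_id]
  refine Nat.mul_le_mul_left _ ?_
  have hn : (rowsOf x).length ≤ x.length + C := (rows_length_le x).trans (Nat.le_add_right _ _)
  have h1 := beta_le hn
  have h2 := rnd_le hn
  unfold tlen hlen blen qOfX bOfX
  refine Nat.add_le_add ?_ (Nat.mul_le_mul_left _ h2)
  exact Nat.mul_le_mul (by omega) (Nat.mul_le_mul_left _ (Nat.mul_le_mul (by omega)
    (Nat.mul_le_mul (by omega) (by omega))))

theorem small_error {n s : ℕ} (h : n ≤ s) :
    (n : ℝ) ^ 4 * (3 / 4) ^ (20 * (s + 1)) ≤ 1 / 2 := by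
  have h1 : (n : ℝ) ^ 4 ≤ 16 ^ s := by
    have h2 : (n : ℝ) ≤ 2 ^ s := by
      have : n ≤ 2 ^ s := h.trans Nat.lt_two_pow_self.le
      exact_mod_cast this
    calc (n : ℝ) ^ 4 ≤ (2 ^ s) ^ 4 := pow_le_pow_left₀ (by positivity) h2 4
      _ = 16 ^ s := by rw [← pow_mul, mul_comm, pow_mul]; norm_num
  have h2 : ((3 : ℝ) / 4) ^ (20 * (s + 1)) ≤ (1 / 256) ^ (s + 1) := by
    rw [pow_mul]
    exact pow_le_pow_left₀ (by positivity) (by norm_num) _
  calc (n : ℝ) ^ 4 * (3 / 4) ^ (20 * (s + 1)) ≤ 16 ^ s * (1 / 256) ^ (s + 1) :=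
        mul_le_mul h1 h2 (by positivity) (by positivity)
    _ = (1 / 16) ^ s * (1 / 256) := by
      rw [pow_succ, ← mul_assoc, ← mul_pow]
      norm_num
    _ ≤ 1 * (1 / 256) := by
      apply mul_le_mul_of_nonneg_right _ (by norm_num)
      exact pow_le_one₀ (by norm_num) (by norm_num)
    _ ≤ 1 / 2 := by norm_num

/-- Graph Automorphism is in `ZPP` relative to the set of the KT-random strings of an arbitrary
universal machine. -/
theorem graphAut_isZPP (U : Machine) (hU : U.Universal) : IsZPP U.RKT GraphAut := by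
  classical
  obtain ⟨Q, C, hQC⟩ := exists_params hU
  refine ⟨algV Q C U.RKT, rbits Q C, isFP_algV Q C U.RKT, fun x => ?_⟩
  set T := (rbits Q C).eval x.length with hT
  have hV : ∀ w, algV Q C U.RKT (pairBits w x) =
      decideA x ((questions Q C (pairBits w x)).map U.RKT) := by
    intro w
    unfold algV
    rw [unpair_pairBits]
  by_cases hu : unbits (List (List Bool)) x = none
  · have h1 : ∀ w, algV Q C U.RKT (pairBits w x) = [false] := by
      intro w
      rw [hV]
      unfold decideA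
      rw [if_pos hu]
    have hx : x ∉ GraphAut := fun h => (mem_graphAut_iff.1 h).1 hu
    refine ⟨fun w _ => ⟨fun h => ?_, fun _ => hx⟩, ?_⟩
    · rw [h1] at h; exact absurd h (by simp)
    · rw [natCard_eq_filter T (fun w => algV Q C U.RKT (pairBits w x) = [true] ∨
        algV Q C U.RKT (pairBits w x) = [false]),
        Finset.filter_true_of_mem (fun w _ => Or.inr (h1 w)), card_Bits]
      push_cast
      rw [div_self (by positivity)]
      norm_num
  by_cases hok : okG (rowsOf x) = true
  swap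
  · have h1 : ∀ w, algV Q C U.RKT (pairBits w x) = [false] := by
      intro w
      rw [hV]
      unfold decideA
      rw [if_neg hu, if_pos (by simpa using hok)]
    have hx : x ∉ GraphAut := fun h => hok (mem_graphAut_iff.1 h).2.1
    refine ⟨fun w _ => ⟨fun h => ?_, fun _ => hx⟩, ?_⟩
    · rw [h1] at h; exact absurd h (by simp)
    · rw [natCard_eq_filter T (fun w => algV Q C U.RKT (pairBits w x) = [true] ∨
        algV Q C U.RKT (pairBits w x) = [false]),
        Finset.filter_true_of_mem (fun w _ => Or.inr (h1 w)), card_Bits]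
      push_cast
      rw [div_self (by positivity)]
      norm_num
  set n := (rowsOf x).length with hn
  have hns : n ≤ x.length := rows_length_le x
  set K := trials x with hK
  set r := rOfX Q C x with hr
  obtain ⟨j, hj⟩ := Nat.exists_eq_add_of_le (le_rbits Q C x)
  rw [← hT, ← hK, ← hr] at hj
  set b := bOfX C x with hb
  set q := qOfX Q C x with hq
  obtain ⟨hq0, hq2, hrand⟩ := hQC b (Nat.le_add_left _ _)
  have hqe : Q.eval b = q := rfl
  rw [hqe] at hq0 hq2 hrand
  -- structures with automorphisms are never certified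
  have hc1 : ∀ w : List Bool, w.length = T → ∀ i < n, ∀ i' < n, ∀ a < n, ∀ b' < n,
      certA x ((questions Q C (pairBits w x)).map U.RKT) i i' a b' = true →
        Rigid (entA (rowsOf x, i, i', a, b')) (2 * n) := by
    intro w hw i hi i' hi' a ha b' hb' hc
    rw [certA_iff Q C U.RKT w x hi hi' ha hb'] at hc
    obtain ⟨k, hk, hc⟩ := hc
    by_contra hnr
    unfold Rigid at hnr
    push Not at hnr
    obtain ⟨π, hπ, u, hu1, hu2⟩ := hnr
    have h1 := hrand (rowsOf x, i, i', a, b') u π hπ hu1 hu2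
      ((sz_rows hu).le.trans (Nat.le_add_right _ _)) hi hi' ha hb' (chunk r k w)
      (chunk_length hk (by rw [hw, hj]))
    unfold quest at hc
    rw [← hn, ← hb, ← hq, ← hr] at hc
    simp only at h1
    rw [← hn, hc] at h1
    exact absurd h1 (by simp)
  refine ⟨fun w hw => ?_, ?_⟩
  · rw [hV]
    have h1 := decideA_correct hu hok (hc1 w hw)
    exact ⟨h1.1, h1.2.1⟩
  -- the probability of failure
  set F : Finset ((ℕ × ℕ) × (ℕ × ℕ)) :=
    ((Finset.range n ×ˢ Finset.range n) ×ˢ (Finset.range n ×ˢ Finset.range n)).filter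
      (fun t => Rigid (entA (rowsOf x, t.1.1, t.1.2, t.2.1, t.2.2)) (2 * n)) with hF
  have hFcard : (F.card : ℝ) ≤ (n : ℝ) ^ 4 := by
    have h1 : F.card ≤ n ^ 4 := by
      refine (Finset.card_filter_le _ _).trans (le_of_eq ?_)
      rw [Finset.card_product, Finset.card_product, Finset.card_range]
      ring
    exact_mod_cast h1
  have hbad : ∑ w ∈ Bits T, (if ∃ t ∈ F, ∀ k < K,
      ¬ U.RKT (trial (entA (rowsOf x, t.1.1, t.1.2, t.2.1, t.2.2)) (2 * n) (n + 3) b q
        (chunk r k w)) = true then (1 : ℝ) else 0) ≤ 2 ^ T / 2 := by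
    refine (sum_exists_le F T (fun t w => ∀ k < K,
      ¬ U.RKT (trial (entA (rowsOf x, t.1.1, t.1.2, t.2.1, t.2.2)) (2 * n) (n + 3) b q
        (chunk r k w)) = true)).trans ?_
    have h1 : ∀ t ∈ F, ∑ w ∈ Bits T, (if ∀ k < K,
      ¬ U.RKT (trial (entA (rowsOf x, t.1.1, t.1.2, t.2.1, t.2.2)) (2 * n) (n + 3) b q
        (chunk r k w)) = true then (1 : ℝ) else 0) ≤ (3 / 4) ^ K * 2 ^ T := by
      intro t ht
      rw [hF, Finset.mem_filter, Finset.mem_product, Finset.mem_product, Finset.mem_product,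
        Finset.mem_range, Finset.mem_range, Finset.mem_range, Finset.mem_range] at ht
      obtain ⟨⟨⟨ht1, ht2⟩, ht3, ht4⟩, hrig⟩ := ht
      rw [hj, sum_chunks (fun u => ¬ U.RKT (trial (entA (rowsOf x, t.1.1, t.1.2, t.2.1, t.2.2))
        (2 * n) (n + 3) b q u) = true) r j K]
      have hxl : 1 ≤ xlen (2 * n) (n + 3) b q := by
        unfold xlen
        have : 1 * 1 ≤ q * (beta (2 * n) b + 1) := Nat.mul_le_mul hq0 (by omega)
        omega
      have h2 := trial_rigid (e := entA (rowsOf x, t.1.1, t.1.2, t.2.1, t.2.2)) (m := 2 * n)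
        (k := n + 3) (b := b) (q := q) (fun s t => ent_length _ _ _ _ _ _ _ _) hrig (by omega)
        hq0 hq2 (R := fun x => U.RKT x = true) (sum_RKT U hxl)
      have h3 : tlen (2 * n) (n + 3) b q = r := rfl
      rw [h3] at h2
      have h4 : (∑ u ∈ Bits r, if ¬ U.RKT (trial (entA (rowsOf x, t.1.1, t.1.2, t.2.1, t.2.2))
        (2 * n) (n + 3) b q u) = true then (1 : ℝ) else 0) ^ K ≤ (3 / 4 * 2 ^ r) ^ K := by
        apply pow_le_pow_left₀ _ h2
        exact Finset.sum_nonneg fun _ _ => by split_ifs <;> norm_num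
      refine (mul_le_mul_of_nonneg_right h4 (by positivity)).trans (le_of_eq ?_)
      rw [mul_pow, ← pow_mul, pow_add, mul_comm r K]
      ring
    refine (Finset.sum_le_sum h1).trans ?_
    rw [Finset.sum_const, nsmul_eq_mul]
    have h2 : (F.card : ℝ) * ((3 / 4) ^ K * 2 ^ T) ≤ (n : ℝ) ^ 4 * ((3 / 4) ^ K * 2 ^ T) :=
      mul_le_mul_of_nonneg_right hFcard (by positivity)
    refine h2.trans ?_
    have h3 := small_error hns
    have h4 : K = 20 * (x.length + 1) := rfl
    rw [← h4] at h3
    have h5 : (0 : ℝ) < 2 ^ T := by positivity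
    calc (n : ℝ) ^ 4 * ((3 / 4) ^ K * 2 ^ T) = (n : ℝ) ^ 4 * (3 / 4) ^ K * 2 ^ T := by ring
      _ ≤ 1 / 2 * 2 ^ T := mul_le_mul_of_nonneg_right h3 h5.le
      _ = 2 ^ T / 2 := by ring
  rw [natCard_eq_filter T (fun w => algV Q C U.RKT (pairBits w x) = [true] ∨
        algV Q C U.RKT (pairBits w x) = [false]), card_filter_eq_sum]
  rw [div_le_div_iff₀ (by norm_num) (by positivity)]
  have hgood : ∀ w ∈ Bits T, (1 : ℝ) ≤ (if algV Q C U.RKT (pairBits w x) = [true] ∨
        algV Q C U.RKT (pairBits w x) = [false] then (1 : ℝ) else 0) +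
      (if ∃ t ∈ F, ∀ k < K,
      ¬ U.RKT (trial (entA (rowsOf x, t.1.1, t.1.2, t.2.1, t.2.2)) (2 * n) (n + 3) b q
        (chunk r k w)) = true then (1 : ℝ) else 0) := by
    intro w hw
    rw [mem_Bits] at hw
    by_cases hbw : ∃ t ∈ F, ∀ k < K,
      ¬ U.RKT (trial (entA (rowsOf x, t.1.1, t.1.2, t.2.1, t.2.2)) (2 * n) (n + 3) b q
        (chunk r k w)) = true
    · rw [if_pos hbw]
      have : (0 : ℝ) ≤ if algV Q C U.RKT (pairBits w x) = [true] ∨
        algV Q C U.RKT (pairBits w x) = [false] then (1 : ℝ) else 0 := by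
        split_ifs <;> norm_num
      linarith
    · have h1 := (decideA_correct hu hok (hc1 w hw)).2.2 (by
        intro i hi i' hi' a ha b' hb' hrig
        rw [certA_iff Q C U.RKT w x hi hi' ha hb']
        push Not at hbw
        obtain ⟨k, hk, h2⟩ := hbw ((i, i'), (a, b')) (by
          rw [hF, Finset.mem_filter, Finset.mem_product, Finset.mem_product, Finset.mem_product,
            Finset.mem_range, Finset.mem_range, Finset.mem_range, Finset.mem_range]
          exact ⟨⟨⟨hi, hi'⟩, ha, hb'⟩, hrig⟩)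
        exact ⟨k, hk, h2⟩)
      rw [← hV] at h1
      rw [if_pos h1, if_neg hbw]
      norm_num
  have h1 := Finset.sum_le_sum hgood
  rw [sum_Bits_const, Finset.sum_add_distrib] at h1
  linarith

end Pool.Agent.TH677.GA
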