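import Pool.Agent.TH677.GA.Drive
import Pool.Agent.TH677.GA.Lib

/-!
# Bounding KT complexity from above
-/

set_option autoImplicit false

namespace Pool.Agent.TH677.GA

open Pool.Agent.NPC Pool.Agent.H622R2

/-- the number of leading ones -/
def lead (l : List Bool) : ℕ := l.foldr (fun b n => if b = true then n + 1 else 0) 0

@[simp] theorem lead_nil : lead [] = 0 := rfl
@[simp] theorem lead_true (l : List Bool) : lead (true :: l) = lead l + 1 := rfl
@[simp] theorem lead_false (l : List Bool) : lead (false :: l) = 0 := rfl

theorem lead_le (l : List Bool) : lead l ≤ l.length := by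
  induction l with
  | nil => simp
  | cons b l ih => cases b <;> simp [ih]

theorem lead_replicate (n : ℕ) : lead (List.replicate n true) = n := by
  induction n with
  | zero => rfl
  | succ n ih => rw [List.replicate_succ, lead_true, ih]

theorem lead_header (n : ℕ) (l : List Bool) : lead (List.replicate n true ++ false :: l) = n := by
  induction n with
  | zero => rfl
  | succ n ih => rw [List.replicate_succ, List.cons_append, lead_true, ih]

theorem plead {α : Type} [TEnc α] {l : α → List Bool} (hl : Poly l) :
    Poly (fun a => lead (l a)) := by
  obtain ⟨p, hp⟩ := hl.sz_le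
  refine Poly.foldr (l := l) (s := fun _ => 0) (F := fun _ b n => if b = true then n + 1 else 0)
    hl (NPC.Poly.const 0) (Poly.ite (Poly.decide_bool (Poly.fst (Poly.snd Poly.id)))
      (Poly.succ (Poly.snd (Poly.snd Poly.id))) (NPC.Poly.const 0)) (4 * p + 1) ?_
  intro a k _
  change sz (lead ((l a).drop k)) ≤ _
  have h1 := lead_le ((l a).drop k)
  have h2 : ((l a).drop k).length ≤ (l a).length := by simp
  have h3 := length_lt_sz (l a)
  have h4 := hp a
  have h5 : lead ((l a).drop k) < 2 ^ p.eval (sz a) :=
    lt_of_le_of_lt (by omega : lead ((l a).drop k) ≤ p.eval (sz a)) Nat.lt_two_pow_self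
  simpa using sz_le_of_lt_pow h5

/-- the header read so far -/
def hdr (a : List Bool) : List Bool := (a.drop (lead a + 1)).take (lead a)

section

variable (off len : List Bool × List Bool → ℕ) (G : List Bool × List Bool × List Bool → Bool)

/-- when to stop: after the header and the part of the description asked for -/
def decStop (y : List Bool × List Bool) : Option Bool :=
  if y.1.reverse.length < 2 * lead y.1.reverse + 1 then none
  else if y.1.reverse.length < 2 * lead y.1.reverse + 1 + len (hdr y.1.reverse, y.2) then none
  else some (G (hdr y.1.reverse, y.2, y.1.reverse.drop (2 * lead y.1.reverse + 1)))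

/-- what to ask -/
def decIdx (y : List Bool × List Bool) : ℕ :=
  if y.1.reverse.length < 2 * lead y.1.reverse + 1 then y.1.reverse.length
  else 2 * lead y.1.reverse + 1 + off (hdr y.1.reverse, y.2) +
    (y.1.reverse.length - (2 * lead y.1.reverse + 1))

variable {off len G}

theorem poly_dec (ho : Poly off) (hl : Poly len) (hG : Poly G) :
    Poly (decStop len G) ∧ Poly (decIdx off) := by
  have ha : Poly (fun y : List Bool × List Bool => y.1.reverse) :=
    Poly.reverse (Poly.fst Poly.id)
  have hL := plead ha
  have h2L : Poly (fun y : List Bool × List Bool => 2 * lead y.1.reverse + 1) :=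
    Poly.succ (Poly.mul (NPC.Poly.const 2) hL)
  have hlen := Poly.length ha
  have hh : Poly (fun y : List Bool × List Bool => hdr y.1.reverse) :=
    ptake (pdrop ha (Poly.succ hL)) hL
  have hx : Poly (fun y : List Bool × List Bool => (hdr y.1.reverse, y.2)) :=
    Poly.pair hh (Poly.snd Poly.id)
  constructor
  · exact Poly.ite (Poly.decide_lt hlen h2L) (NPC.Poly.const none)
      (Poly.ite (Poly.decide_lt hlen (Poly.add h2L (hl.comp hx))) (NPC.Poly.const none)
        (Poly.some (hG.comp (Poly.pair hh (Poly.pair (Poly.snd Poly.id) (pdrop ha h2L))))))
  · exact Poly.ite (Poly.decide_lt hlen h2L) hlen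
      (Poly.add (Poly.add h2L (ho.comp hx)) (Poly.sub hlen h2L))

/-- the description with header `h` and data `e` -/
def descr (h e : List Bool) : List Bool := List.replicate h.length true ++ false :: (h ++ e)

theorem descr_length (h e : List Bool) : (descr h e).length = 2 * h.length + 1 + e.length := by
  simp [descr]; omega

/-- the part of the data of length `n` from position `k` on -/
def part (e : List Bool) (k n : ℕ) : List Bool := (List.range n).map fun j => e.getD (k + j) false

theorem getD_descr (h e : List Bool) (k : ℕ) :
    (descr h e).getD (2 * h.length + 1 + k) false = e.getD k false := by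
  unfold descr
  rw [List.getD_append_right _ _ _ _ (by simp; omega), List.length_replicate,
    show 2 * h.length + 1 + k - h.length = (h.length + k) + 1 by omega, List.getD_cons_succ,
    List.getD_append_right _ _ _ _ (by omega)]
  congr 1
  omega

theorem take_succ_getD (d : List Bool) (n : ℕ) (hn : n < d.length) :
    (d.take (n + 1)).reverse = d.getD n false :: (d.take n).reverse := by
  rw [List.getD_eq_getElem _ _ hn, List.take_succ_eq_append_getElem hn]
  simp

theorem lead_take (h e : List Bool) {n : ℕ} (hn : n ≤ 2 * h.length + 1) :
    lead ((descr h e).take n) = min n h.length := by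
  unfold descr
  rcases Nat.lt_or_ge h.length n with h1 | h1
  · obtain ⟨k, rfl⟩ := Nat.exists_eq_add_of_lt h1
    rw [min_eq_right (by omega), List.take_append, List.length_replicate,
      List.take_of_length_le (by simp; omega),
      show h.length + k + 1 - h.length = k + 1 by omega, List.take_succ_cons, lead_header]
  · rw [min_eq_left h1, List.take_append_of_le_length (by simpa using h1), List.take_replicate,
      min_eq_left h1, lead_replicate]

theorem answers_phase1 (h e x : List Bool) : ∀ n, n ≤ 2 * h.length + 1 →
    answers (decIdx off) (descr h e) x n = ((descr h e).take n).reverse := by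
  intro n
  induction n with
  | zero => intro _; simp [answers]
  | succ n ih =>
    intro hn
    have hlt : n < (descr h e).length := by rw [descr_length]; omega
    rw [answers, ih (by omega), take_succ_getD _ _ hlt]
    congr 1
    unfold decIdx
    simp only [List.reverse_reverse]
    have h1 : ((descr h e).take n).length = n := by
      rw [List.length_take, min_eq_left hlt.le]
    rw [lead_take h e (by omega), h1, if_pos (by omega)]

theorem hdr_take (h e : List Bool) (c : List Bool) :
    hdr ((descr h e).take (2 * h.length + 1) ++ c) = h ∧
    lead ((descr h e).take (2 * h.length + 1) ++ c) = h.length := by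
  have h1 : (descr h e).take (2 * h.length + 1) =
      List.replicate h.length true ++ false :: h := by
    unfold descr
    rw [List.take_append, List.length_replicate, List.take_of_length_le (by simp; omega),
      show 2 * h.length + 1 - h.length = h.length + 1 by omega, List.take_succ_cons,
      List.take_left' rfl]
  have h2 : lead ((descr h e).take (2 * h.length + 1) ++ c) = h.length := by
    rw [h1, List.append_assoc, List.cons_append, lead_header]
  refine ⟨?_, h2⟩
  unfold hdr
  rw [h2, h1]
  have h3 : (List.replicate h.length true ++ false :: h) ++ c =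
      (List.replicate h.length true ++ [false]) ++ (h ++ c) := by simp
  rw [h3, List.drop_left' (by simp), List.take_left' rfl]

theorem answers_phase2 (h e x : List Bool) : ∀ n,
    answers (decIdx off) (descr h e) x (2 * h.length + 1 + n) =
      ((descr h e).take (2 * h.length + 1) ++ part e (off (h, x)) n).reverse := by
  intro n
  induction n with
  | zero =>
    rw [Nat.add_zero, answers_phase1 h e x _ le_rfl]
    simp [part]
  | succ n ih =>
    rw [← add_assoc, answers, ih]
    have hlen : ((descr h e).take (2 * h.length + 1) ++ part e (off (h, x)) n).length =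
        2 * h.length + 1 + n := by
      rw [List.length_append, List.length_take, descr_length, min_eq_left (by omega)]
      simp [part]
    have h1 : part e (off (h, x)) (n + 1) =
        part e (off (h, x)) n ++ [e.getD (off (h, x) + n) false] := by
      simp [part, List.range_succ]
    have h1' : ((descr h e).take (2 * h.length + 1) ++ part e (off (h, x)) (n + 1)).reverse =
        e.getD (off (h, x) + n) false ::
          ((descr h e).take (2 * h.length + 1) ++ part e (off (h, x)) n).reverse := by
      rw [h1, ← List.append_assoc, List.reverse_concat]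
    rw [h1']
    congr 1
    unfold decIdx
    simp only [List.reverse_reverse]
    obtain ⟨h2, h3⟩ := hdr_take h e (part e (off (h, x)) n)
    rw [h2, h3, hlen, if_neg (by omega), ← getD_descr h e (off (h, x) + n)]
    congr 1
    omega

/-- the machine that reads the header and then the part of the data it needs -/
theorem exists_decoder (ho : Poly off) (hl : UPoly len) (hG : Poly G) :
    ∃ (P : List Instr) (p : Polynomial ℕ), ∀ h e x : List Bool,
      ∃ t ≤ p.eval (h.length + x.length), Halts P (descr h e) x t
        (G (h, x, part e (off (h, x)) (len (h, x)))) := by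
  obtain ⟨hs, hi⟩ := poly_dec ho hl.toPoly hG
  obtain ⟨P, p, hP⟩ := exists_machine hs hi
  obtain ⟨u, hu⟩ := UPoly.bound hl
  refine ⟨P, p.comp (2 * Polynomial.X + 1 + u.comp (4 * Polynomial.X + 3)), fun h e x => ?_⟩
  have A1 : ∀ n < 2 * h.length + 1 + len (h, x),
      decStop len G (answers (decIdx off) (descr h e) x n, x) = none := by
    intro n hn
    rcases Nat.lt_or_ge n (2 * h.length + 1) with h2 | h2
    · rw [answers_phase1 h e x n h2.le]
      unfold decStop
      simp only [List.reverse_reverse]
      have h3 : ((descr h e).take n).length = n := by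
        rw [List.length_take, min_eq_left (by rw [descr_length]; omega)]
      rw [lead_take h e h2.le, h3, if_pos (by omega)]
    · obtain ⟨m, rfl⟩ := Nat.exists_eq_add_of_le h2
      rw [answers_phase2 h e x m]
      unfold decStop
      simp only [List.reverse_reverse]
      obtain ⟨h3, h4⟩ := hdr_take h e (part e (off (h, x)) m)
      have hlen : ((descr h e).take (2 * h.length + 1) ++ part e (off (h, x)) m).length =
          2 * h.length + 1 + m := by
        rw [List.length_append, List.length_take, descr_length, min_eq_left (by omega)]
        simp [part]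
      rw [h3, h4, hlen, if_neg (by omega), if_pos (by omega)]
  have A2 : decStop len G (answers (decIdx off) (descr h e) x
      (2 * h.length + 1 + len (h, x)), x) =
      some (G (h, x, part e (off (h, x)) (len (h, x)))) := by
    rw [answers_phase2 h e x]
    unfold decStop
    simp only [List.reverse_reverse]
    obtain ⟨h3, h4⟩ := hdr_take h e (part e (off (h, x)) (len (h, x)))
    have hlen : ((descr h e).take (2 * h.length + 1) ++
        part e (off (h, x)) (len (h, x))).length = 2 * h.length + 1 + len (h, x) := by
      rw [List.length_append, List.length_take, descr_length, min_eq_left (by omega)]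
      simp [part]
    rw [h3, h4, hlen, if_neg (by omega), if_neg (by omega)]
    congr 3
    rw [List.drop_left' (by rw [List.length_take, descr_length, min_eq_left (by omega)])]
  obtain ⟨t, ht, h1⟩ := hP (descr h e) x (2 * h.length + 1 + len (h, x)) _ A1 A2
  refine ⟨t, ht.trans ?_, h1⟩
  simp only [Polynomial.eval_comp, Polynomial.eval_add, Polynomial.eval_mul,
    Polynomial.eval_ofNat, Polynomial.eval_X, Polynomial.eval_one]
  apply eval_mono
  have h2 : len (h, x) ≤ u.eval (4 * (h.length + x.length) + 3) := by
    refine (hu (h, x)).trans (eval_mono _ ?_)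
    rw [sz_pair]
    have h3 := sz_listBool_le h
    have h4 := sz_listBool_le x
    omega
  omega

theorem inCode_length (i : ℕ) (b : Option Bool) : (inCode i b).length ≤ i.bits.length + 2 := by
  cases b <;> simp [inCode]

/-- the upper bound for the KT complexity -/
theorem KT_le {U : Machine} (hU : U.Universal) (ho : Poly off) (hl : UPoly len) (hG : Poly G) :
    ∃ p : Polynomial ℕ, ∀ h e x : List Bool,
      (∀ i ≤ x.length, ∀ b, G (h, inCode (i + 1) b,
        part e (off (h, inCode (i + 1) b)) (len (h, inCode (i + 1) b))) =
          decide (x[i]? = b)) →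
      U.KT x ≤ ((2 * h.length + e.length +
        p.eval (h.length + (x.length + 1).bits.length) : ℕ) : ℕ∞) := by
  obtain ⟨P, p, hP⟩ := exists_decoder ho hl hG
  obtain ⟨c, hc⟩ := hU P
  refine ⟨1 + (c : Polynomial ℕ) + (c : Polynomial ℕ) * (p.comp (Polynomial.X + 2) + 1) ^ c,
    fun h e x hx => ?_⟩
  obtain ⟨d', hd', hrun⟩ := hc (descr h e)
  set T := p.eval (h.length + (x.length + 1).bits.length + 2) with hT
  have hrun' : ∀ i ≤ x.length, ∀ b, ∃ t' ≤ c * (T + 1) ^ c,
      U.run d' (i + 1) b = some (decide (x[i]? = b), t') := by
    intro i hi b
    obtain ⟨t, ht, h1⟩ := hP h e (inCode (i + 1) b)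
    rw [hx i hi b] at h1
    obtain ⟨t', ht', h2⟩ := hrun _ _ _ _ h1
    refine ⟨t', ht'.trans (Nat.mul_le_mul_left _ (Nat.pow_le_pow_left ?_ _)), h2⟩
    refine Nat.succ_le_succ (ht.trans (eval_mono _ ?_))
    have h3 := inCode_length (i + 1) b
    have h4 : (i + 1).bits.length ≤ (x.length + 1).bits.length := by
      rw [Nat.size_eq_bits_len, Nat.size_eq_bits_len]
      exact Nat.size_le_size (by omega)
    omega
  have hdesc : U.Describes d' (c * (T + 1) ^ c) x := by
    intro i b hi1 hi2
    obtain ⟨i, rfl⟩ := Nat.exists_eq_add_of_le' hi1
    obtain ⟨t', ht', h1⟩ := hrun' i (by omega) b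
    rw [Nat.add_sub_cancel]
    unfold Machine.Accepts
    rw [h1]
    constructor
    · rintro ⟨s, _, hs⟩
      simp only [Option.some.injEq, Prod.mk.injEq, decide_eq_true_eq] at hs
      exact hs.1
    · intro h2
      exact ⟨t', ht', by simp [h2]⟩
  have h1 : U.KT x ≤ ((d'.length + c * (T + 1) ^ c : ℕ) : ℕ∞) :=
    iInf_le_of_le d' (iInf_le_of_le _ (iInf_le _ hdesc))
  refine h1.trans ?_
  rw [Nat.cast_le]
  rw [descr_length] at hd'
  simp only [Polynomial.eval_add, Polynomial.eval_mul, Polynomial.eval_one,
    Polynomial.eval_natCast, Polynomial.eval_pow, Polynomial.eval_comp, Polynomial.eval_X,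
    Polynomial.eval_ofNat, Nat.cast_id]
  rw [← hT]
  omega

end

end Pool.Agent.TH677.GA
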