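import Pool.Agent.TH677.GA.Alg

/-!
# Correctness of the algorithm
-/

set_option autoImplicit false

namespace Pool.Agent.TH677.GA

open Pool.Agent.NPC Pool.Agent.H622R2
open Pool.Agent.H620R2.Gauge (Oracle IsFP IsZPP)

/-! ### graphs and their codes -/

theorem rowsOf_bits (r : List (List Bool)) : rowsOf (bits r) = r := by
  unfold rowsOf
  rw [unbits_bits]

theorem ofFn_getD {n : ℕ} {β : Type} (f : Fin n → β) (d : β) (s : Fin n) :
    (List.ofFn f).getD s d = f s := by
  rw [List.getD_eq_getElem _ _ (by simp), List.getElem_ofFn]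

theorem entry_adjRows {n : ℕ} (G : SimpleGraph (Fin n)) (s t : Fin n) :
    entry (adjRows G) s t = true ↔ G.Adj s t := by
  classical
  unfold entry adjRows
  rw [ofFn_getD, ofFn_getD]
  simp

theorem adjRows_length {n : ℕ} (G : SimpleGraph (Fin n)) : (adjRows G).length = n := by
  simp [adjRows]

theorem okG_adjRows {n : ℕ} (G : SimpleGraph (Fin n)) : okG (adjRows G) = true := by
  classical
  unfold okG
  rw [adjRows_length, Bool.and_eq_true, List.all_eq_true, List.all_eq_true]
  constructor
  · intro r hr
    unfold adjRows at hr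
    rw [List.mem_ofFn] at hr
    obtain ⟨i, rfl⟩ := hr
    simp
  · intro s hs
    rw [List.all_eq_true]
    intro t ht
    rw [List.mem_range] at hs ht
    rw [Bool.and_eq_true, decide_eq_true_eq, Bool.eq_iff_iff]
    have h1 := entry_adjRows G ⟨s, hs⟩ ⟨t, ht⟩
    have h2 := entry_adjRows G ⟨t, ht⟩ ⟨s, hs⟩
    have h3 := entry_adjRows G ⟨s, hs⟩ ⟨s, hs⟩
    simp only at h1 h2 h3
    refine ⟨by rw [h1, h2, SimpleGraph.adj_comm], ?_⟩
    rw [Bool.not_eq_true', ← Bool.not_eq_true, h3]
    exact G.irrefl

theorem okG_iff {r : List (List Bool)} : okG r = true ↔ (∀ l ∈ r, l.length = r.length) ∧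
    ∀ s < r.length, ∀ t < r.length, entry r s t = entry r t s ∧ entry r s s = false := by
  unfold okG
  rw [Bool.and_eq_true, List.all_eq_true, List.all_eq_true]
  refine and_congr ?_ ?_
  · simp
  · constructor
    · intro h s hs t ht
      have h1 := h s (List.mem_range.2 hs)
      rw [List.all_eq_true] at h1
      have h2 := h1 t (List.mem_range.2 ht)
      rw [Bool.and_eq_true, decide_eq_true_eq, Bool.not_eq_true'] at h2
      exact h2
    · intro h s hs
      rw [List.all_eq_true]
      intro t ht
      rw [Bool.and_eq_true, decide_eq_true_eq, Bool.not_eq_true']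
      exact h s (List.mem_range.1 hs) t (List.mem_range.1 ht)

/-- the graph of a matrix -/
def graphOf (r : List (List Bool)) (h : okG r = true) : SimpleGraph (Fin r.length) where
  Adj s t := entry r s t = true
  symm := ⟨fun s t hst => by
    rw [← ((okG_iff.1 h).2 s s.2 t t.2).1]
    exact hst⟩
  loopless := ⟨fun s hs => by
    rw [((okG_iff.1 h).2 s s.2 s s.2).2] at hs
    exact Bool.false_ne_true hs⟩

theorem adjRows_graphOf (r : List (List Bool)) (h : okG r = true) :
    adjRows (graphOf r h) = r := by
  classical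
  have h0 : adjRows (graphOf r h) = List.ofFn (fun i : Fin r.length => r[i]) := by
    unfold adjRows
    congr 1
    funext i
    have hr : (r[i]).length = r.length := (okG_iff.1 h).1 _ (List.getElem_mem _)
    apply List.ext_getElem (by rw [List.length_ofFn]; exact hr.symm)
    intro j hj hj'
    rw [List.getElem_ofFn]
    have h1 : entry r i j = r[i][j] := by
      unfold entry
      rw [List.getD_eq_getElem _ _ i.2]
      exact List.getD_eq_getElem _ _ hj'
    have h2 : (graphOf r h).Adj i ⟨j, by simpa using hj⟩ ↔ r[i][j] = true := by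
      rw [← h1]
      exact Iff.rfl
    rw [Bool.eq_iff_iff]
    exact ⟨fun h3 => h2.1 (of_decide_eq_true h3), fun h3 => decide_eq_true (h2.2 h3)⟩
  rw [h0]
  exact List.ofFn_getElem

/-- membership in the language, in terms of the matrix -/
theorem mem_graphAut_iff {x : List Bool} : x ∈ GraphAut ↔
    unbits (List (List Bool)) x ≠ none ∧ okG (rowsOf x) = true ∧
      ∃ σ : Equiv.Perm (Fin (rowsOf x).length), AutP (entry (rowsOf x)) (rowsOf x).length σ ∧
        σ ≠ 1 := by
  constructor
  · rintro ⟨n, G, rfl, φ, hφ⟩
    refine ⟨by rw [unbits_bits]; simp, by rw [rowsOf_bits]; exact okG_adjRows G, ?_⟩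
    rw [rowsOf_bits]
    have key : ∀ (m : ℕ) (hm : m = n), ∃ σ : Equiv.Perm (Fin m),
        AutP (entry (adjRows G)) m σ ∧ σ ≠ 1 := by
      rintro m rfl
      refine ⟨φ.toEquiv, fun s t => ?_, fun h => hφ ?_⟩
      · rw [Bool.eq_iff_iff, entry_adjRows, entry_adjRows]
        exact φ.map_adj_iff
      · ext v
        have := congrArg (fun e : Equiv.Perm (Fin m) => e v) h
        exact congrArg Fin.val this
    exact key _ (adjRows_length G)
  · rintro ⟨h1, h2, σ, h3, h4⟩
    refine ⟨(rowsOf x).length, graphOf (rowsOf x) h2, ?_, ⟨σ, ?_⟩, fun h => h4 ?_⟩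
    · rw [adjRows_graphOf]
      unfold rowsOf
      cases hu : unbits (List (List Bool)) x with
      | none => exact absurd hu h1
      | some r => exact (bits_of_unbits hu).symm
    · intro s t
      change entry (rowsOf x) (σ s) (σ t) = true ↔ entry (rowsOf x) s t = true
      rw [h3]
    · ext v
      have := congrArg (fun e : graphOf (rowsOf x) h2 ≃g graphOf (rowsOf x) h2 => e v) h
      exact congrArg Fin.val this

/-! ### the tests -/

theorem okAut_iff {r : List (List Bool)} {L : List ℕ} : okAut r L = true ↔
    ((∀ s < r.length, L.getD s 0 < r.length ∧ ∀ t < r.length,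
      entry r (L.getD s 0) (L.getD t 0) = entry r s t ∧ (s = t ∨ L.getD s 0 ≠ L.getD t 0)) ∧
      ∃ s < r.length, L.getD s 0 ≠ s) := by
  unfold okAut
  rw [Bool.and_eq_true, List.all_eq_true, List.any_eq_true]
  refine and_congr ?_ ?_
  · refine forall_congr' fun s => ?_
    rw [List.mem_range]
    refine imp_congr_right fun _ => ?_
    rw [Bool.and_eq_true, decide_eq_true_eq, List.all_eq_true]
    refine and_congr_right fun _ => forall_congr' fun t => ?_
    rw [List.mem_range]
    refine imp_congr_right fun _ => ?_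
    rw [Bool.and_eq_true, decide_eq_true_eq, Bool.or_eq_true, decide_eq_true_eq]
    simp
  · refine exists_congr fun s => ?_
    rw [List.mem_range]
    simp

/-- an accepted list gives an automorphism -/
theorem exists_of_okAut {r : List (List Bool)} {L : List ℕ} (h : okAut r L = true) :
    ∃ σ : Equiv.Perm (Fin r.length), AutP (entry r) r.length σ ∧ σ ≠ 1 := by
  obtain ⟨h1, s, hs, h2⟩ := okAut_iff.1 h
  have hb : Function.Bijective (fun x : Fin r.length =>
      (⟨L.getD x 0, (h1 x x.2).1⟩ : Fin r.length)) := by
    rw [← Finite.injective_iff_bijective]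
    intro x y hxy
    rcases ((h1 x x.2).2 y y.2).2 with h3 | h3
    · exact Fin.ext h3
    · exact absurd (congrArg Fin.val hxy) h3
  refine ⟨Equiv.ofBijective _ hb, fun x y => ?_, fun h3 => ?_⟩
  · simp only [Equiv.ofBijective_apply]
    exact ((h1 x x.2).2 y y.2).1
  · have h4 := congrArg (fun e : Equiv.Perm (Fin r.length) => e ⟨s, hs⟩) h3
    simp only [Equiv.ofBijective_apply, Equiv.Perm.one_apply] at h4
    exact h2 (congrArg Fin.val h4)

/-- an automorphism gives an accepted list -/
theorem okAut_of {r : List (List Bool)} {L : List ℕ} {σ : Equiv.Perm (Fin r.length)}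
    (hσ : AutP (entry r) r.length σ) (h1 : σ ≠ 1) (hL : ∀ s : Fin r.length, L.getD s 0 = σ s) :
    okAut r L = true := by
  rw [okAut_iff]
  refine ⟨fun s hs => ⟨?_, fun t ht => ⟨?_, ?_⟩⟩, ?_⟩
  · rw [hL ⟨s, hs⟩]; exact Fin.is_lt _
  · rw [hL ⟨s, hs⟩, hL ⟨t, ht⟩]; exact hσ ⟨s, hs⟩ ⟨t, ht⟩
  · by_cases hst : s = t
    · exact Or.inl hst
    · right
      rw [hL ⟨s, hs⟩, hL ⟨t, ht⟩]
      intro h2
      have h3 := σ.injective (Fin.ext h2)
      exact hst (congrArg Fin.val h3)
  · by_contra h2
    push Not at h2
    apply h1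
    ext s
    rw [Equiv.Perm.one_apply, ← hL s]
    exact h2 s s.2

section

variable (Q : Polynomial ℕ) (C : ℕ)

/-- the number of a question -/
theorem qIdx_lt {n K i j a b k : ℕ} (hi : i < n) (hj : j < n) (ha : a < n) (hb : b < n)
    (hk : k < K) : qIdx n K i j a b k < n * n * n * n * K := by
  unfold qIdx
  have step : ∀ {u v m l : ℕ}, u < m → v < l → u * l + v < m * l := by
    intro u v m l hu hv
    calc u * l + v < u * l + l := by omega
      _ = (u + 1) * l := by ring
      _ ≤ m * l := Nat.mul_le_mul_right _ hu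
  exact step (step (step (step hi hj) ha) hb) hk

theorem qIdx_decode {n K i j a b k : ℕ} (hj : j < n) (ha : a < n) (hb : b < n)
    (hk : k < K) :
    qIdx n K i j a b k / K / n / n / n = i ∧ qIdx n K i j a b k / K / n / n % n = j ∧
    qIdx n K i j a b k / K / n % n = a ∧ qIdx n K i j a b k / K % n = b ∧
    qIdx n K i j a b k % K = k := by
  have hn : 0 < n := by omega
  have hK : 0 < K := by omega
  have h1 : ∀ {u v l : ℕ}, v < l → (u * l + v) / l = u ∧ (u * l + v) % l = v := by
    intro u v l hv
    constructor
    · rw [mul_comm, Nat.mul_add_div (by omega), Nat.div_eq_of_lt hv, add_zero]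
    · rw [mul_comm, Nat.mul_add_mod, Nat.mod_eq_of_lt hv]
  unfold qIdx
  rw [(h1 hk).1, (h1 hk).2, (h1 hb).1, (h1 hb).2, (h1 ha).1, (h1 ha).2, (h1 hj).1, (h1 hj).2]
  exact ⟨rfl, rfl, rfl, rfl, rfl⟩

/-- the answer to a question -/
theorem answer_eq (A : Oracle) (w x : List Bool) {i j a b k : ℕ} (hi : i < (rowsOf x).length)
    (hj : j < (rowsOf x).length) (ha : a < (rowsOf x).length) (hb : b < (rowsOf x).length)
    (hk : k < trials x) :
    ((questions Q C (pairBits w x)).map A).getD
      (qIdx (rowsOf x).length (trials x) i j a b k) false = A (quest Q C w x i j a b k) := by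
  unfold questions
  simp only [unpair_pairBits]
  have h1 := qIdx_lt hi hj ha hb hk
  rw [List.getD_eq_getElem _ _ (by simpa using h1)]
  simp only [List.map_map, List.getElem_map, List.getElem_range, Function.comp]
  unfold questN
  obtain ⟨e1, e2, e3, e4, e5⟩ := qIdx_decode (i := i) hj ha hb hk
  simp only [e1, e2, e3, e4, e5]

theorem certA_iff (A : Oracle) (w x : List Bool) {i j a b : ℕ} (hi : i < (rowsOf x).length)
    (hj : j < (rowsOf x).length) (ha : a < (rowsOf x).length) (hb : b < (rowsOf x).length) :
    certA x ((questions Q C (pairBits w x)).map A) i j a b = true ↔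
      ∃ k < trials x, A (quest Q C w x i j a b k) = true := by
  unfold certA
  rw [List.any_eq_true]
  refine exists_congr fun k => ?_
  rw [List.mem_range]
  refine and_congr_right fun hk => ?_
  rw [answer_eq Q C A w x hi hj ha hb hk]

end

/-- the result on a graph, when exactly the rigid structures are certified -/
theorem decideA_correct {x ans : List Bool} (hu : unbits (List (List Bool)) x ≠ none)
    (hok : okG (rowsOf x) = true)
    (hc1 : ∀ i < (rowsOf x).length, ∀ j < (rowsOf x).length, ∀ a < (rowsOf x).length,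
      ∀ b < (rowsOf x).length, certA x ans i j a b = true →
        Rigid (entA (rowsOf x, i, j, a, b)) (2 * (rowsOf x).length)) :
    (decideA x ans = [true] → x ∈ GraphAut) ∧ (decideA x ans = [false] → x ∉ GraphAut) ∧
    ((∀ i < (rowsOf x).length, ∀ j < (rowsOf x).length, ∀ a < (rowsOf x).length,
      ∀ b < (rowsOf x).length, Rigid (entA (rowsOf x, i, j, a, b)) (2 * (rowsOf x).length) →
        certA x ans i j a b = true) →
      decideA x ans = [true] ∨ decideA x ans = [false]) := by
  set r := rowsOf x with hr
  set n := r.length with hn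
  have hcert : allCert x ans = true → ∀ σ, AutP (entry r) n σ → σ = 1 := by
    intro hall
    unfold allCert at hall
    simp only [List.all_eq_true, List.mem_range, Bool.or_eq_true, decide_eq_true_eq] at hall
    intro σ hσ
    by_contra hne
    have hex : ∃ i : ℕ, ∃ hi : i < n, σ ⟨i, hi⟩ ≠ ⟨i, hi⟩ := by
      by_contra h
      push Not at h
      apply hne
      ext s
      rw [Equiv.Perm.one_apply, h s s.2]
    classical
    obtain ⟨hi, hmv⟩ := Nat.find_spec hex
    set i := Nat.find hex with hidef
    have hmin : ∀ c (hc : c < i), (σ ⟨c, hc.trans hi⟩ : ℕ) = c := by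
      intro c hc
      have h1 := Nat.find_min hex hc
      push Not at h1
      have h2 := h1 (hc.trans hi)
      rw [h2]
    have hij : (σ ⟨i, hi⟩ : ℕ) ≠ i := fun h => hmv (Fin.ext h)
    obtain ⟨π, hπ, hπi⟩ := exists_aut_ent hσ hi hi hmin rfl rfl
    rcases hall i hi (σ ⟨i, hi⟩) (Fin.is_lt _) i hi (σ ⟨i, hi⟩) (Fin.is_lt _) with h1 | h1
    · exact hij h1.symm
    · have h2 := hc1 i hi _ (Fin.is_lt _) i hi _ (Fin.is_lt _) h1
      exact hπi (h2 π hπ i (by omega))
  have hfound : found x ans = true → x ∈ GraphAut := by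
    intro hf
    unfold found at hf
    rw [List.any_eq_true] at hf
    obtain ⟨i, _, hf⟩ := hf
    rw [List.any_eq_true] at hf
    obtain ⟨j, _, hf⟩ := hf
    exact mem_graphAut_iff.2 ⟨hu, hok, exists_of_okAut hf⟩
  refine ⟨fun h => ?_, fun h => ?_, fun hc2 => ?_⟩
  · unfold decideA at h
    rw [if_neg hu, if_neg (by rw [hok]; simp)] at h
    by_cases h1 : allCert x ans = true
    · rw [if_pos h1] at h
      exact absurd h (by simp)
    · rw [if_neg h1] at h
      by_cases h2 : found x ans = true
      · exact hfound h2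
      · rw [if_neg h2] at h
        exact absurd h (by simp)
  · unfold decideA at h
    rw [if_neg hu, if_neg (by rw [hok]; simp)] at h
    by_cases h1 : allCert x ans = true
    · intro hx
      obtain ⟨-, -, σ, h3, h4⟩ := mem_graphAut_iff.1 hx
      exact h4 (hcert h1 σ h3)
    · rw [if_neg h1] at h
      by_cases h2 : found x ans = true
      · rw [if_pos h2] at h
        exact absurd h (by simp)
      · rw [if_neg h2] at h
        exact absurd h (by simp)
  · unfold decideA
    rw [if_neg hu, if_neg (by rw [hok]; simp)]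
    by_cases h1 : allCert x ans = true
    · rw [if_pos h1]
      exact Or.inr rfl
    · rw [if_neg h1]
      left
      have hf : found x ans = true := by
        -- the graph is not rigid
        have hnr : ∃ σ, AutP (entry r) n σ ∧ σ ≠ 1 := by
          by_contra h
          push Not at h
          apply h1
          unfold allCert
          simp only [List.all_eq_true, List.mem_range, Bool.or_eq_true, decide_eq_true_eq]
          intro i hi j hj a ha b hb
          by_cases hij : i = j
          · exact Or.inl hij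
          · right
            exact hc2 i hi j hj a ha b hb (rigid_ent_of_rigid hi hj ha hij h)
        -- the last possible first moved vertex
        have hS : ∃ i : ℕ, ∃ hi : i < n, ∃ σ, AutP (entry r) n σ ∧
            (∀ c : Fin n, (c : ℕ) < i → σ c = c) ∧ σ ⟨i, hi⟩ ≠ ⟨i, hi⟩ := by
          obtain ⟨σ, hσ, hne⟩ := hnr
          have hex : ∃ i : ℕ, ∃ hi : i < n, σ ⟨i, hi⟩ ≠ ⟨i, hi⟩ := by
            by_contra h
            push Not at h
            apply hne
            ext s
            rw [Equiv.Perm.one_apply, h s s.2]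
          classical
          obtain ⟨hi, hmv⟩ := Nat.find_spec hex
          refine ⟨Nat.find hex, hi, σ, hσ, fun c hc => ?_, hmv⟩
          have h1 := Nat.find_min hex hc
          push Not at h1
          exact h1 c.2
        classical
        obtain ⟨i, hi', hmax⟩ : ∃ i : ℕ, (∃ hi : i < n, ∃ σ, AutP (entry r) n σ ∧
            (∀ c : Fin n, (c : ℕ) < i → σ c = c) ∧ σ ⟨i, hi⟩ ≠ ⟨i, hi⟩) ∧
            ∀ i' : ℕ, i < i' → ¬ ∃ hi : i' < n, ∃ σ, AutP (entry r) n σ ∧
            (∀ c : Fin n, (c : ℕ) < i' → σ c = c) ∧ σ ⟨i', hi⟩ ≠ ⟨i', hi⟩ := by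
          obtain ⟨i₀, hi₀⟩ := hS
          have hbd : ∀ i' : ℕ, (∃ hi : i' < n, ∃ σ, AutP (entry r) n σ ∧
            (∀ c : Fin n, (c : ℕ) < i' → σ c = c) ∧ σ ⟨i', hi⟩ ≠ ⟨i', hi⟩) → i' ≤ n :=
            fun i' ⟨h, _⟩ => h.le
          have hle := hbd i₀ hi₀
          refine ⟨Nat.findGreatest (fun i' => ∃ hi : i' < n, ∃ σ, AutP (entry r) n σ ∧
            (∀ c : Fin n, (c : ℕ) < i' → σ c = c) ∧ σ ⟨i', hi⟩ ≠ ⟨i', hi⟩) n,
            Nat.findGreatest_spec (P := fun i' => ∃ hi : i' < n, ∃ σ, AutP (entry r) n σ ∧
            (∀ c : Fin n, (c : ℕ) < i' → σ c = c) ∧ σ ⟨i', hi⟩ ≠ ⟨i', hi⟩) hle hi₀,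
            fun i' h2 h3 => ?_⟩
          exact Nat.findGreatest_is_greatest h2 (hbd i' h3) h3
        obtain ⟨hi, σ, hσ, hfix, hmv⟩ := hi'
        have hτ : ∀ τ, AutP (entry r) n τ → (∀ c : Fin n, (c : ℕ) ≤ i → τ c = c) → τ = 1 := by
          intro τ hτ1 hτ2
          by_contra hne
          have hex : ∃ i : ℕ, ∃ hi : i < n, τ ⟨i, hi⟩ ≠ ⟨i, hi⟩ := by
            by_contra h
            push Not at h
            apply hne
            ext s
            rw [Equiv.Perm.one_apply, h s s.2]
          obtain ⟨hi2, hmv2⟩ := Nat.find_spec hex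
          refine hmax (Nat.find hex) ?_ ⟨hi2, τ, hτ1, fun c hc => ?_, hmv2⟩
          · by_contra h2
            exact hmv2 (hτ2 ⟨Nat.find hex, hi2⟩ (not_lt.1 h2))
          · have h2 := Nat.find_min hex hc
            push Not at h2
            exact h2 c.2
        have hσ1 : σ ≠ 1 := by
          rintro rfl
          exact hmv rfl
        -- the images are found
        have himg : ∀ a : Fin n, imgA x ans i (σ ⟨i, hi⟩) a = σ a := by
          intro a
          have hca : ∀ b < n, certA x ans i (σ ⟨i, hi⟩) a b = true ↔ b ≠ σ a := by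
            intro b hb
            constructor
            · rintro h2 rfl
              obtain ⟨π, hπ, hπi⟩ := exists_aut_ent (a := a) hσ hi a.2
                (fun c hc => congrArg Fin.val (hfix ⟨c, hc.trans hi⟩ hc)) rfl rfl
              exact hπi (hc1 i hi _ (Fin.is_lt _) a a.2 _ (Fin.is_lt _) h2 π hπ i (by omega))
            · intro h2
              exact hc2 i hi _ (Fin.is_lt _) a a.2 b hb
                (rigid_ent_of_ne hi (Fin.is_lt _) a.2 hτ hσ hfix rfl (Ne.symm h2))
          unfold imgA
          have hfil : (List.range (rowsOf x).length).filter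
              (fun b => !certA x ans i (σ ⟨i, hi⟩) a b) = [(σ a : ℕ)] := by
            have h2 : (List.range (rowsOf x).length).filter
                (fun b => !certA x ans i (σ ⟨i, hi⟩) a b) =
                (List.range n).filter (fun b => b == (σ a : ℕ)) := by
              apply List.filter_congr
              intro b hb
              rw [List.mem_range] at hb
              rw [Bool.eq_iff_iff, Bool.not_eq_true', ← Bool.not_eq_true, hca b hb, beq_iff_eq,
                not_not]
            rw [h2, List.filter_beq, List.count_eq_one_of_mem List.nodup_range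
              (List.mem_range.2 (Fin.is_lt _))]
            rfl
          rw [hfil]
          rfl
        unfold found
        rw [List.any_eq_true]
        refine ⟨i, List.mem_range.2 hi, ?_⟩
        rw [List.any_eq_true]
        refine ⟨σ ⟨i, hi⟩, List.mem_range.2 (Fin.is_lt _), ?_⟩
        refine okAut_of hσ hσ1 fun s => ?_
        rw [List.getD_eq_getElem _ _ (by simp)]
        rw [List.getElem_map, List.getElem_range]
        exact himg s
      rw [if_pos hf]

end Pool.Agent.TH677.GA
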