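import Pool.Agent.TH677.GA.Defs
import Pool.Agent.H622R2.CoNP

/-!
# Structured programs with random access to a description, and their compilation
-/

set_option autoImplicit false

namespace Pool.Agent.TH677.GA

open Function (update)
open Pool.Agent.NPC

/-- structured programs with questions about a description -/
inductive Prog : Type
  | skip : Prog
  | push (k : ℕ) (b : Bool) : Prog
  | pop (k : ℕ) : Prog
  | ask (k : ℕ) : Prog
  | seq (p q : Prog) : Prog
  | cases (k : ℕ) (p₀ pf pt : Prog) : Prog
  | loop (k : ℕ) (p : Prog) : Prog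

/-- big-step semantics with running time -/
inductive Exec (d : List Bool) : Prog → (ℕ → List Bool) → (ℕ → List Bool) → ℕ → Prop
  | skip (s) : Exec d Prog.skip s s 1
  | push (s k b) : Exec d (Prog.push k b) s (update s k (b :: s k)) 1
  | pop (s k) : Exec d (Prog.pop k) s (update s k (s k).tail) 1
  | ask (s k) : Exec d (Prog.ask k) s (update s k (d[num (s k)]?).toList) 1
  | seq {p q s s' s'' t t'} : Exec d p s s' t → Exec d q s' s'' t' →
      Exec d (Prog.seq p q) s s'' (t + t')
  | casesNil {k p₀ pf pt s s' t} : s k = [] → Exec d p₀ s s' t →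
      Exec d (Prog.cases k p₀ pf pt) s s' (t + 1)
  | casesFalse {k p₀ pf pt s s' t l} : s k = false :: l → Exec d pf s s' t →
      Exec d (Prog.cases k p₀ pf pt) s s' (t + 1)
  | casesTrue {k p₀ pf pt s s' t l} : s k = true :: l → Exec d pt s s' t →
      Exec d (Prog.cases k p₀ pf pt) s s' (t + 1)
  | loopNil {k p s} : s k = [] → Exec d (Prog.loop k p) s s 1
  | loopCons {k p s s' s'' t t'} : s k ≠ [] → Exec d p s s' t →
      Exec d (Prog.loop k p) s' s'' t' → Exec d (Prog.loop k p) s s'' (t + t' + 1)

/-- programs without questions -/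
def ofCmd : Cmd ℕ → Prog
  | Cmd.skip => Prog.skip
  | Cmd.push k b => Prog.push k b
  | Cmd.pop k => Prog.pop k
  | Cmd.seq c c' => Prog.seq (ofCmd c) (ofCmd c')
  | Cmd.cases k c₀ cf ct => Prog.cases k (ofCmd c₀) (ofCmd cf) (ofCmd ct)
  | Cmd.loop k c => Prog.loop k (ofCmd c)

theorem Exec.ofRun (d : List Bool) {c : Cmd ℕ} {s s' : ℕ → List Bool} {t : ℕ}
    (h : Run c s s' t) : Exec d (ofCmd c) s s' t := by
  induction h with
  | skip s => exact Exec.skip s
  | push s k b => exact Exec.push s k b
  | pop s k => exact Exec.pop s k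
  | seq _ _ ih₁ ih₂ => exact Exec.seq ih₁ ih₂
  | casesNil hk _ ih => exact Exec.casesNil hk ih
  | casesFalse hk _ ih => exact Exec.casesFalse hk ih
  | casesTrue hk _ ih => exact Exec.casesTrue hk ih
  | loopNil hk => exact Exec.loopNil hk
  | loopCons hk _ _ ih₁ ih₂ => exact Exec.loopCons hk ih₁ ih₂

/-! ### compilation -/

/-- the length of the compiled program -/
def clen : Prog → ℕ
  | Prog.skip => 0
  | Prog.push _ _ => 1
  | Prog.pop _ => 1
  | Prog.ask _ => 1
  | Prog.seq p q => clen p + clen q
  | Prog.cases _ p₀ pf pt => clen p₀ + clen pf + clen pt + 3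
  | Prog.loop _ p => clen p + 2

/-- the compiled program, to be placed at the position `a` -/
def comp : Prog → ℕ → List Instr
  | Prog.skip, _ => []
  | Prog.push k b, _ => [Instr.push k b]
  | Prog.pop k, _ => [Instr.pop k]
  | Prog.ask k, _ => [Instr.ask k]
  | Prog.seq p q, a => comp p a ++ comp q (a + clen p)
  | Prog.cases k p₀ pf pt, a =>
    let e := a + (clen p₀ + clen pf + clen pt + 3)
    Instr.branch k (a + 1) (a + 1 + clen p₀ + 1) (a + 1 + clen p₀ + 1 + clen pf + 1) ::
      (comp p₀ (a + 1) ++ (Instr.branch 0 e e e :: (comp pf (a + 1 + clen p₀ + 1) ++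
        (Instr.branch 0 e e e :: comp pt (a + 1 + clen p₀ + 1 + clen pf + 1)))))
  | Prog.loop k p, a =>
    Instr.branch k (a + (clen p + 2)) (a + 1) (a + 1) ::
      (comp p (a + 1) ++ [Instr.branch 0 a a a])

theorem comp_length (p : Prog) : ∀ a, (comp p a).length = clen p := by
  induction p with
  | skip => intro a; rfl
  | push k b => intro a; rfl
  | pop k => intro a; rfl
  | ask k => intro a; rfl
  | seq p q ih₁ ih₂ => intro a; simp [comp, clen, ih₁, ih₂]
  | cases k p₀ pf pt ih₀ ihf iht =>
    intro a
    simp only [comp, clen, List.length_cons, List.length_append, ih₀, ihf, iht]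
    omega
  | loop k p ih =>
    intro a
    simp only [comp, clen, List.length_cons, List.length_append, ih, List.length_nil]

/-- the list `l` is at the position `a` of the program `P` -/
def At (P : List Instr) (a : ℕ) (l : List Instr) : Prop :=
  ∀ j (h : j < l.length), P[a + j]? = some l[j]

theorem At.cons {P : List Instr} {a : ℕ} {x : Instr} {l : List Instr} (h : At P a (x :: l)) :
    P[a]? = some x ∧ At P (a + 1) l := by
  refine ⟨h 0 (Nat.zero_lt_succ _), fun j hj => ?_⟩
  have := h (j + 1) (by simpa using hj)
  rw [show a + 1 + j = a + (j + 1) by ring, this]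
  simp

theorem At.append {P : List Instr} {a : ℕ} {l l' : List Instr} (h : At P a (l ++ l')) :
    At P a l ∧ At P (a + l.length) l' := by
  refine ⟨fun j hj => ?_, fun j hj => ?_⟩
  · rw [h j (by simp; omega), List.getElem_append_left hj]
  · rw [show a + l.length + j = a + (l.length + j) by ring, h (l.length + j) (by simp; omega),
      List.getElem_append_right (by omega)]
    simp

theorem steps_add (P : List Instr) (d : List Bool) (t t' : ℕ) : ∀ {c c' : Conf},
    steps P d t c = some c' → steps P d (t + t') c = steps P d t' c' := by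
  induction t with
  | zero =>
    intro c c' h
    simp only [steps, Option.some.injEq] at h
    rw [h, Nat.zero_add]
  | succ t ih =>
    intro c c' h
    rw [show t + 1 + t' = (t + t') + 1 by ring]
    simp only [steps] at h ⊢
    cases hc : step P d c with
    | none => simp [hc] at h
    | some c₁ =>
      rw [hc] at h
      simp only [Option.bind_some] at h ⊢
      exact ih h

theorem steps_one (P : List Instr) (d : List Bool) (c : Conf) :
    steps P d 1 c = step P d c := by
  simp only [steps]
  cases step P d c <;> rfl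

/-- reachability with a bound for the number of steps -/
def Reach (P : List Instr) (d : List Bool) (n : ℕ) (c c' : Conf) : Prop :=
  ∃ t ≤ n, steps P d t c = some c'

theorem Reach.refl (P : List Instr) (d : List Bool) (n : ℕ) (c : Conf) : Reach P d n c c :=
  ⟨0, Nat.zero_le _, rfl⟩

theorem Reach.trans {P : List Instr} {d : List Bool} {m n : ℕ} {c c' c'' : Conf}
    (h : Reach P d m c c') (h' : Reach P d n c' c'') : Reach P d (m + n) c c'' := by
  obtain ⟨t, ht, h⟩ := h
  obtain ⟨t', ht', h'⟩ := h'
  exact ⟨t + t', by omega, by rw [steps_add P d t t' h, h']⟩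

theorem Reach.mono {P : List Instr} {d : List Bool} {m n : ℕ} {c c' : Conf}
    (h : Reach P d m c c') (hmn : m ≤ n) : Reach P d n c c' := by
  obtain ⟨t, ht, h⟩ := h
  exact ⟨t, ht.trans hmn, h⟩

theorem Reach.one {P : List Instr} {d : List Bool} {c c' : Conf} (h : step P d c = some c') :
    Reach P d 1 c c' := ⟨1, le_rfl, by rw [steps_one, h]⟩

theorem comp_correct {d : List Bool} {p : Prog} {s s' : ℕ → List Bool} {t : ℕ}
    (h : Exec d p s s' t) : ∀ (P : List Instr) (a : ℕ), At P a (comp p a) →
      Reach P d (3 * t) (a, s) (a + clen p, s') := by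
  induction h with
  | skip s => exact fun P a _ => Reach.refl _ _ _ _
  | push s k b =>
    intro P a hP
    have h1 := hP.cons.1
    exact (Reach.one (by simp [step, h1, clen])).mono (by norm_num)
  | pop s k =>
    intro P a hP
    have h1 := hP.cons.1
    exact (Reach.one (by simp [step, h1, clen])).mono (by norm_num)
  | ask s k =>
    intro P a hP
    have h1 := hP.cons.1
    exact (Reach.one (by simp [step, h1, clen])).mono (by norm_num)
  | @seq p q s s' s'' t t' _ _ ih₁ ih₂ =>
    intro P a hP
    obtain ⟨h1, h2⟩ := hP.append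
    rw [comp_length] at h2
    have h3 := (ih₁ P a h1).trans (ih₂ P _ h2)
    rw [clen, ← add_assoc]
    exact h3.mono (by omega)
  | @casesNil k p₀ pf pt s s' t hk _ ih =>
    intro P a hP
    obtain ⟨h1, h2⟩ := hP.cons
    obtain ⟨h3, h4⟩ := h2.append
    rw [comp_length] at h4
    obtain ⟨h5, -⟩ := h4.cons
    have g1 : Reach P d 1 (a, s) (a + 1, s) := Reach.one (by simp [step, h1, hk])
    have g2 := ih P (a + 1) h3
    have g3 : Reach P d 1 (a + 1 + clen p₀, s') (a + clen (Prog.cases k p₀ pf pt), s') := by
      refine Reach.one ?_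
      simp only [step, h5, clen]
      cases s' 0 with
      | nil => rfl
      | cons b l => cases b <;> rfl
    exact ((g1.trans g2).trans g3).mono (by omega)
  | @casesFalse k p₀ pf pt s s' t l hk _ ih =>
    intro P a hP
    obtain ⟨h1, h2⟩ := hP.cons
    obtain ⟨h3, h4⟩ := h2.append
    rw [comp_length] at h4
    obtain ⟨h5, h6⟩ := h4.cons
    obtain ⟨h7, h8⟩ := h6.append
    rw [comp_length] at h8
    obtain ⟨h9, -⟩ := h8.cons
    have g1 : Reach P d 1 (a, s) (a + 1 + clen p₀ + 1, s) :=
      Reach.one (by simp [step, h1, hk])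
    have g2 := ih P _ h7
    have g3 : Reach P d 1 (a + 1 + clen p₀ + 1 + clen pf, s')
        (a + clen (Prog.cases k p₀ pf pt), s') := by
      refine Reach.one ?_
      simp only [step, h9, clen]
      cases s' 0 with
      | nil => rfl
      | cons b l => cases b <;> rfl
    exact ((g1.trans g2).trans g3).mono (by omega)
  | @casesTrue k p₀ pf pt s s' t l hk _ ih =>
    intro P a hP
    obtain ⟨h1, h2⟩ := hP.cons
    obtain ⟨h3, h4⟩ := h2.append
    rw [comp_length] at h4
    obtain ⟨h5, h6⟩ := h4.cons
    obtain ⟨h7, h8⟩ := h6.append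
    rw [comp_length] at h8
    obtain ⟨h9, h10⟩ := h8.cons
    have g1 : Reach P d 1 (a, s) (a + 1 + clen p₀ + 1 + clen pf + 1, s) :=
      Reach.one (by simp [step, h1, hk])
    have g2 := ih P _ h10
    have e : a + 1 + clen p₀ + 1 + clen pf + 1 + clen pt =
        a + clen (Prog.cases k p₀ pf pt) := by
      simp only [clen]; omega
    rw [e] at g2
    exact (g1.trans g2).mono (by omega)
  | @loopNil k p s hk =>
    intro P a hP
    obtain ⟨h1, -⟩ := hP.cons
    exact (Reach.one (by simp [step, h1, hk, clen])).mono (by norm_num)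
  | @loopCons k p s s' s'' t t' hk _ _ ih₁ ih₂ =>
    intro P a hP
    obtain ⟨h1, h2⟩ := hP.cons
    obtain ⟨h3, h4⟩ := h2.append
    rw [comp_length] at h4
    obtain ⟨h5, -⟩ := h4.cons
    have g1 : Reach P d 1 (a, s) (a + 1, s) := by
      refine Reach.one ?_
      obtain ⟨b, l, hl⟩ := List.exists_cons_of_ne_nil hk
      cases b <;> simp [step, h1, hl]
    have g2 := ih₁ P (a + 1) h3
    have g3 : Reach P d 1 (a + 1 + clen p, s') (a, s') := by
      refine Reach.one ?_
      simp only [step, h5]
      cases s' 0 with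
      | nil => rfl
      | cons b l => cases b <;> rfl
    have g4 := ih₂ P a hP
    exact (((g1.trans g2).trans g3).trans g4).mono (by omega)

/-- a structured program gives a machine -/
theorem halts_of_exec {d : List Bool} {p : Prog} {x : List Bool} {s' : ℕ → List Bool} {t : ℕ}
    {v : Bool} (h : Exec d p (update (fun _ => []) 0 x) s' t) (hv : v = true ↔ s' 0 = [true]) :
    ∃ t' ≤ 3 * t, Halts (comp p 0) d x t' v := by
  obtain ⟨t', ht, h1⟩ := comp_correct h (comp p 0) 0 (fun j hj => by
    rw [Nat.zero_add, List.getElem?_eq_getElem])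
  refine ⟨t', ht, (0 + clen p, s'), h1, ?_, hv⟩
  have h2 : (comp p 0)[0 + clen p]? = none := by
    rw [List.getElem?_eq_none]
    rw [comp_length]
    omega
  simp only [step, h2]

end Pool.Agent.TH677.GA
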